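import Mathlib

set_option autoImplicit false

namespace Pool.Agent.MP_d3e607_co

open Finset

/-- Rado's lemma for a monotone submodular function. -/
theorem rado {ι α : Type} [DecidableEq ι] [DecidableEq α] [Inhabited α] (E : Finset ι)
    (f : Finset α → ℕ) (f0 : f ∅ = 0) (mono : ∀ s t, s ⊆ t → f s ≤ f t)
    (sub : ∀ s t, f (s ∪ t) + f (s ∩ t) ≤ f s + f t) :
    ∀ (n : ℕ) (A : ι → Finset α), ∑ i ∈ E, (A i).card = n →
      (∀ J ⊆ E, J.card ≤ f (J.biUnion A)) →
      ∃ a : ι → α, (∀ i ∈ E, a i ∈ A i) ∧ ∀ J ⊆ E, J.card ≤ f (J.image a) := by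
  intro n
  induction n using Nat.strong_induction_on with
  | _ n ih =>
  intro A hn hA
  by_cases h1 : ∀ i ∈ E, (A i).card ≤ 1
  · have hne : ∀ i ∈ E, ∃ x, A i = {x} := by
      intro i hi
      have h := hA {i} (by simpa using hi)
      rw [card_singleton, singleton_biUnion] at h
      have : (A i).card ≠ 0 := by
        intro h0
        rw [card_eq_zero] at h0
        rw [h0, f0] at h
        omega
      exact card_eq_one.mp (by have := h1 i hi; omega)
    classical
    choose! a ha using hne
    refine ⟨a, fun i hi => by rw [ha i hi]; simp, fun J hJ => ?_⟩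
    have : J.biUnion A = J.image a := by
      ext x
      simp only [mem_biUnion, mem_image]
      constructor
      · rintro ⟨i, hi, hx⟩
        rw [ha i (hJ hi), mem_singleton] at hx
        exact ⟨i, hi, hx.symm⟩
      · rintro ⟨i, hi, rfl⟩
        exact ⟨i, hi, by rw [ha i (hJ hi)]; simp⟩
    rw [← this]
    exact hA J hJ
  · push Not at h1
    obtain ⟨i, hi, hc⟩ := h1
    obtain ⟨x, hx, y, hy, hxy⟩ := one_lt_card.mp hc
    -- removing `z` from `A i`
    have key : ∀ z ∈ A i, (∀ J ⊆ E, J.card ≤ f (J.biUnion (Function.update A i ((A i).erase z)))) →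
        ∃ a : ι → α, (∀ i ∈ E, a i ∈ A i) ∧ ∀ J ⊆ E, J.card ≤ f (J.image a) := by
      intro z hz hJ
      have hlt : ∑ j ∈ E, (Function.update A i ((A i).erase z) j).card < n := by
        rw [← hn]
        apply sum_lt_sum
        · intro j _
          by_cases hj : j = i
          · subst hj; simp only [Function.update_self]; exact card_erase_le
          · simp [Function.update_of_ne hj]
        · exact ⟨i, hi, by simp only [Function.update_self]; exact card_erase_lt_of_mem hz⟩
      obtain ⟨a, ha, hb⟩ := ih _ hlt _ rfl hJ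
      refine ⟨a, fun j hj => ?_, hb⟩
      have := ha j hj
      by_cases hji : j = i
      · subst hji; simp only [Function.update_self] at this; exact mem_of_mem_erase this
      · rwa [Function.update_of_ne hji] at this
    by_contra hcon
    have bad : ∀ z ∈ A i, ∃ K ⊆ E, i ∉ K ∧ f ((A i).erase z ∪ K.biUnion A) ≤ K.card := by
      intro z hz
      by_contra hno
      push Not at hno
      apply hcon
      apply key z hz
      intro J hJ
      by_cases hiJ : i ∈ J
      · have h2 := hno (J.erase i) ((erase_subset _ _).trans hJ) (notMem_erase _ _)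
        have h3 : (A i).erase z ∪ (J.erase i).biUnion A ⊆
            J.biUnion (Function.update A i ((A i).erase z)) := by
          intro w hw
          rcases mem_union.mp hw with hw | hw
          · exact mem_biUnion.mpr ⟨i, hiJ, by simpa only [Function.update_self] using hw⟩
          · obtain ⟨j, hj, hw⟩ := mem_biUnion.mp hw
            exact mem_biUnion.mpr ⟨j, mem_of_mem_erase hj, by
              rwa [Function.update_of_ne (ne_of_mem_erase hj)]⟩
        have h4 := mono _ _ h3
        have h5 := card_erase_add_one hiJ
        omega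
      · have : J.biUnion (Function.update A i ((A i).erase z)) = J.biUnion A := by
          apply biUnion_congr rfl
          intro j hj
          rw [Function.update_of_ne (by rintro rfl; exact hiJ hj)]
        rw [this]; exact hA J hJ
    obtain ⟨K, hK, hiK, hfK⟩ := bad x hx
    obtain ⟨L, hL, hiL, hfL⟩ := bad y hy
    have s1 := sub ((A i).erase x ∪ K.biUnion A) ((A i).erase y ∪ L.biUnion A)
    have s2 : (insert i (K ∪ L)).biUnion A ⊆
        ((A i).erase x ∪ K.biUnion A) ∪ ((A i).erase y ∪ L.biUnion A) := by
      intro w hw0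
      obtain ⟨j, hj, hw⟩ := mem_biUnion.mp hw0
      rcases mem_insert.mp hj with hji | hj
      · rw [hji] at hw
        by_cases hwx : w = x
        · rw [hwx] at hw ⊢
          exact mem_union_right _ (mem_union_left _ (mem_erase.mpr ⟨hxy, hw⟩))
        · exact mem_union_left _ (mem_union_left _ (mem_erase.mpr ⟨hwx, hw⟩))
      · rcases mem_union.mp hj with hj | hj
        · exact mem_union_left _ (mem_union_right _ (mem_biUnion.mpr ⟨j, hj, hw⟩))
        · exact mem_union_right _ (mem_union_right _ (mem_biUnion.mpr ⟨j, hj, hw⟩))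
    have s3 : (K ∩ L).biUnion A ⊆
        ((A i).erase x ∪ K.biUnion A) ∩ ((A i).erase y ∪ L.biUnion A) := by
      intro w hw
      obtain ⟨j, hj, hw⟩ := mem_biUnion.mp hw
      exact mem_inter.mpr ⟨mem_union_right _ (mem_biUnion.mpr ⟨j, (mem_inter.mp hj).1, hw⟩),
        mem_union_right _ (mem_biUnion.mpr ⟨j, (mem_inter.mp hj).2, hw⟩)⟩
    have s4 := mono _ _ s2
    have s5 := mono _ _ s3
    have s6 := hA (insert i (K ∪ L)) (insert_subset hi (union_subset hK hL))
    have s7 := hA (K ∩ L) (inter_subset_left.trans hK)
    have s8 : (insert i (K ∪ L)).card = (K ∪ L).card + 1 :=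
      card_insert_of_notMem (by simp [hiK, hiL])
    have s9 := card_union_add_card_inter K L
    omega

end Pool.Agent.MP_d3e607_co
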