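import Mathlib

set_option autoImplicit false

namespace Pool.Agent.MP_d3e607_co

open Finset Module

variable {V : Type} [Fintype V] [DecidableEq V]

/-- The unit vector of a vertex. -/
def dl (u : V) : V → ZMod 2 := Pi.single u 1

omit [Fintype V] in
lemma dl_ne {u v : V} (h : v ≠ u) : dl u v = 0 := by simp [dl, h]

omit [Fintype V] in
lemma dl_self (u : V) : dl u u = 1 := by simp [dl]

omit [Fintype V] [DecidableEq V] in
lemma add_self2 (w : V → ZMod 2) : w + w = 0 := by
  funext v
  exact CharTwo.add_self_eq_zero (w v)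

/-- Sum of the coordinates. -/
def sg : (V → ZMod 2) →ₗ[ZMod 2] ZMod 2 := ∑ v, LinearMap.proj v

lemma sg_dl (u : V) : sg (dl u) = 1 := by
  simp [sg, dl, LinearMap.sum_apply, Pi.single_apply]

lemma sg_pair (u v : V) : sg (dl u + dl v) = 0 := by
  rw [map_add, sg_dl, sg_dl]; rfl

omit [Fintype V] [DecidableEq V] in
lemma span_vanish (Z : Set (V → ZMod 2)) (v : V) (h : ∀ w ∈ Z, w v = 0) :
    ∀ w ∈ Submodule.span (ZMod 2) Z, w v = 0 := by
  have : Submodule.span (ZMod 2) Z ≤ LinearMap.ker (LinearMap.proj (R := ZMod 2) v) :=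
    Submodule.span_le.mpr (fun w hw => by simpa using h w hw)
  intro w hw
  simpa using this hw

lemma lb_span (hd : V → V) (φ : V → ℕ) (T : Finset V) :
    (∀ u ∈ T, φ (hd u) < φ u) →
    T.card ≤ finrank (ZMod 2) (Submodule.span (ZMod 2) ((fun u => dl u + dl (hd u)) '' (T : Set V))) := by
  induction T using Finset.induction_on_max_value φ with
  | empty => simp
  | insert a s ha hmax ih =>
    intro h
    have h1 := ih (fun u hu => h u (mem_insert_of_mem hu))
    rw [card_insert_of_notMem ha]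
    refine Nat.succ_le_of_lt (lt_of_le_of_lt h1 (Submodule.finrank_lt_finrank_of_lt ?_))
    refine lt_of_le_of_ne (Submodule.span_mono (Set.image_mono (by simp))) ?_
    intro heq
    have hm : dl a + dl (hd a) ∈
        Submodule.span (ZMod 2) ((fun u => dl u + dl (hd u)) '' (s : Set V)) := by
      rw [heq]; exact Submodule.subset_span ⟨a, by simp, rfl⟩
    have hv := span_vanish _ a (by
      rintro w ⟨u, hu, rfl⟩
      have hu' : u ∈ s := hu
      have h2 : a ≠ u := by rintro rfl; exact ha hu'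
      have h3 : a ≠ hd u := by
        intro h4
        have := h u (mem_insert_of_mem hu')
        have := hmax u hu'
        rw [← h4] at *
        omega
      simp [dl_ne h2, dl_ne h3]) _ hm
    have h3 : a ≠ hd a := by
      intro h4
      have := h a (mem_insert_self _ _)
      rw [← h4] at this
      omega
    simp [dl_self, dl_ne h3] at hv

lemma lb_arcs (U : Submodule (ZMod 2) (V → ZMod 2)) (hd : V → V) (φ : V → ℕ) (T : Finset V)
    (h : ∀ u ∈ T, φ (hd u) < φ u) (hU : ∀ u ∈ T, dl u + dl (hd u) ∈ U) :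
    T.card ≤ finrank (ZMod 2) U := by
  refine (lb_span hd φ T h).trans (Submodule.finrank_mono (Submodule.span_le.mpr ?_))
  rintro w ⟨u, hu, rfl⟩
  exact hU u hu

lemma lb_arcs_anch (U : Submodule (ZMod 2) (V → ZMod 2)) (hd : V → V) (φ : V → ℕ) (T : Finset V)
    (h : ∀ u ∈ T, φ (hd u) < φ u) (hU : ∀ u ∈ T, dl u + dl (hd u) ∈ U) (a : V) (ha : dl a ∈ U) :
    T.card + 1 ≤ finrank (ZMod 2) U := by
  refine Nat.succ_le_of_lt (lt_of_le_of_lt (lb_span hd φ T h)
    (Submodule.finrank_lt_finrank_of_lt (lt_of_le_of_ne (Submodule.span_le.mpr ?_) ?_)))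
  · rintro w ⟨u, hu, rfl⟩
    exact hU u hu
  · intro heq
    have : Submodule.span (ZMod 2) ((fun u => dl u + dl (hd u)) '' (T : Set V)) ≤
        LinearMap.ker sg := by
      refine Submodule.span_le.mpr ?_
      rintro w ⟨u, _, rfl⟩
      exact sg_pair _ _
    rw [heq] at this
    have h2 := this ha
    rw [LinearMap.mem_ker, sg_dl] at h2
    exact one_ne_zero h2

lemma ub_supp (U : Submodule (ZMod 2) (V → ZMod 2)) (S : Finset V)
    (h : ∀ w ∈ U, ∀ v, v ∉ S → w v = 0) : finrank (ZMod 2) U ≤ S.card := by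
  have h1 : U ≤ Submodule.span (ZMod 2) ((S.image dl : Finset (V → ZMod 2)) : Set (V → ZMod 2)) := by
    intro w hw
    have : w = ∑ v ∈ S, w v • dl v := by
      funext x
      rw [Finset.sum_apply]
      by_cases hx : x ∈ S
      · rw [sum_eq_single x]
        · simp [dl_self]
        · intro b _ hb; simp [dl_ne hb.symm]
        · intro h2; exact absurd hx h2
      · rw [h w hw x hx]
        symm
        apply sum_eq_zero
        intro b hb
        have : x ≠ b := by rintro rfl; exact hx hb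
        simp [dl_ne this]
    rw [this]
    refine Submodule.sum_mem _ (fun v hv => Submodule.smul_mem _ _ (Submodule.subset_span ?_))
    simp only [coe_image]
    exact ⟨v, hv, rfl⟩
  exact (Submodule.finrank_mono h1).trans
    ((finrank_span_finset_le_card _).trans card_image_le)

lemma ub_supp_sum (U : Submodule (ZMod 2) (V → ZMod 2)) (S : Finset V) (hS : S.Nonempty)
    (h : ∀ w ∈ U, ∀ v, v ∉ S → w v = 0) (h0 : ∀ w ∈ U, sg w = 0) :
    finrank (ZMod 2) U + 1 ≤ S.card := by
  obtain ⟨a, ha⟩ := hS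
  have h1 := ub_supp (U ⊔ Submodule.span (ZMod 2) {dl a}) S (by
    intro w hw v hv
    obtain ⟨x, hx, y, hy, rfl⟩ := Submodule.mem_sup.mp hw
    have h2 : v ≠ a := by rintro rfl; exact hv ha
    have h3 := span_vanish {dl a} v (by simp [dl_ne h2]) y hy
    simp [h x hx v hv, h3])
  refine le_trans (Nat.succ_le_of_lt (Submodule.finrank_lt_finrank_of_lt
    (lt_of_le_of_ne le_sup_left ?_))) h1
  intro heq
  have h2 : dl a ∈ U := by
    rw [heq]; exact Submodule.mem_sup_right (Submodule.subset_span rfl)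
  have := h0 _ h2
  rw [sg_dl] at this
  exact one_ne_zero this

/-- Connectedness of a family of supports. -/
def Conn {ι : Type} (supp : ι → Finset V) (X : Finset ι) : Prop :=
  ∀ T ⊆ X, T.Nonempty → T ≠ X → ∃ e ∈ T, ∃ e' ∈ X, e' ∉ T ∧ ∃ v, v ∈ supp e ∧ v ∈ supp e'

omit [Fintype V] in
lemma conn_pairs {ι : Type} [DecidableEq ι] (supp : ι → Finset V) (X : Finset ι)
    (hc : Conn supp X) (U : Submodule (ZMod 2) (V → ZMod 2))
    (hU : ∀ e ∈ X, ∀ a ∈ supp e, ∀ b ∈ supp e, dl a + dl b ∈ U) :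
    ∀ a ∈ X.biUnion supp, ∀ b ∈ X.biUnion supp, dl a + dl b ∈ U := by
  classical
  intro a ha b hb
  obtain ⟨e0, he0, ha⟩ := mem_biUnion.mp ha
  obtain ⟨e1, he1, hb⟩ := mem_biUnion.mp hb
  have hT : X.filter (fun e => ∀ x ∈ supp e, dl a + dl x ∈ U) = X := by
    by_contra hne
    obtain ⟨e, he, e', he', hn, v, hv, hv'⟩ := hc _ (filter_subset _ _)
      ⟨e0, mem_filter.mpr ⟨he0, fun x hx => hU e0 he0 a ha x hx⟩⟩ hne
    apply hn
    refine mem_filter.mpr ⟨he', fun x hx => ?_⟩
    have h1 := (mem_filter.mp he).2 v hv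
    have h2 := hU e' he' v hv' x hx
    have h3 : dl a + dl x = (dl a + dl v) + (dl v + dl x) := by
      rw [add_assoc, ← add_assoc (dl v), add_self2, zero_add]
    rw [h3]; exact U.add_mem h1 h2
  rw [← hT] at he1
  exact (mem_filter.mp he1).2 b hb

lemma lb_pairs (U : Submodule (ZMod 2) (V → ZMod 2)) (S : Finset V)
    (hU : ∀ a ∈ S, ∀ b ∈ S, dl a + dl b ∈ U) : S.card ≤ finrank (ZMod 2) U + 1 := by
  rcases S.eq_empty_or_nonempty with rfl | ⟨a, ha⟩
  · simp
  have := lb_arcs U (fun _ => a) (fun v => if v = a then 0 else 1) (S.erase a)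
    (fun u hu => by simp [ne_of_mem_erase hu]) (fun u hu => hU u (mem_of_mem_erase hu) a ha)
  have h2 := card_erase_add_one ha
  omega

lemma lb_pairs_anch (U : Submodule (ZMod 2) (V → ZMod 2)) (S : Finset V)
    (hU : ∀ a ∈ S, ∀ b ∈ S, dl a + dl b ∈ U) (x : V) (hx : dl x ∈ U) :
    S.card ≤ finrank (ZMod 2) U := by
  rcases S.eq_empty_or_nonempty with rfl | ⟨a, ha⟩
  · simp
  have := lb_arcs_anch U (fun _ => a) (fun v => if v = a then 0 else 1) (S.erase a)
    (fun u hu => by simp [ne_of_mem_erase hu]) (fun u hu => hU u (mem_of_mem_erase hu) a ha) x hx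
  have h2 := card_erase_add_one ha
  omega

omit [Fintype V] in
/-- Arcs with distinct tails that decrease a potential and stay inside a nonempty set. -/
lemma count_acyclic {ι : Type} (X : Finset ι) (t h : ι → V) (φ : V → ℕ) (S : Finset V)
    (hS : S.Nonempty) (hinj : ∀ e ∈ X, ∀ e' ∈ X, t e = t e' → e = e')
    (ht : ∀ e ∈ X, t e ∈ S) (hh : ∀ e ∈ X, h e ∈ S) (hφ : ∀ e ∈ X, φ (h e) < φ (t e)) :
    X.card + 1 ≤ S.card := by
  obtain ⟨a, ha, hmin⟩ := exists_min_image S φ hS
  have := card_le_card_of_injOn (s := X) (t := S.erase a) t (fun e he => by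
    have he' : e ∈ X := he
    refine mem_coe.mpr (mem_erase.mpr ⟨?_, ht e he'⟩)
    intro h1
    have := hφ e he'
    have := hmin _ (hh e he')
    rw [h1] at *
    omega) (fun e he e' he' h => hinj e he e' he' h)
  have h2 := card_erase_add_one ha
  omega

end Pool.Agent.MP_d3e607_co
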