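import Mathlib
import Pool.Agent.MP_d3e607_co.H94Rado
import Pool.Agent.MP_d3e607_co.H94Rank

set_option autoImplicit false

namespace Pool.Agent.MP_d3e607_co

open Finset Module

variable {V : Type} [Fintype V] [DecidableEq V] {ι : Type} [DecidableEq ι]

omit [Fintype V] in
lemma exists_leaf (I : Finset ι) (touch : ι → Finset V) (an : ι → Prop)
    (h2 : ∀ e ∈ I, (touch e).card ≤ 2) (h1 : ∀ e ∈ I, an e → (touch e).card ≤ 1)
    (c1 : I.card ≤ (I.biUnion touch).card)
    (c2 : (∀ e ∈ I, ¬ an e) → I.card + 1 ≤ (I.biUnion touch).card)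
    :
    ∃ e ∈ I, ∃ u ∈ touch e, ∀ e' ∈ I, e' ≠ e → u ∉ touch e' := by
  classical
  by_contra hcon
  push Not at hcon
  have d1 : ∀ u ∈ I.biUnion touch, 2 ≤ (I.filter (fun e => u ∈ touch e)).card := by
    intro u hu
    obtain ⟨e, he, hu⟩ := mem_biUnion.mp hu
    obtain ⟨e', he', hne, hu'⟩ := hcon e he u hu
    exact one_lt_card.mpr ⟨e', mem_filter.mpr ⟨he', hu'⟩, e, mem_filter.mpr ⟨he, hu⟩, hne⟩
  have d2 : ∑ u ∈ I.biUnion touch, (I.filter (fun e => u ∈ touch e)).card =
      ∑ e ∈ I, (touch e).card := by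
    simp only [card_filter]
    rw [sum_comm]
    refine sum_congr rfl (fun e he => ?_)
    rw [← card_filter]
    congr 1
    ext u
    simp only [mem_filter, mem_biUnion]
    exact ⟨fun h => h.2, fun h => ⟨⟨e, he, h⟩, h⟩⟩
  have d3 : 2 * (I.biUnion touch).card ≤ ∑ e ∈ I, (touch e).card := by
    rw [← d2, mul_comm, ← smul_eq_mul]
    exact card_nsmul_le_sum _ _ _ d1
  by_cases han : ∀ e ∈ I, ¬ an e
  · have d4 : ∑ e ∈ I, (touch e).card ≤ I.card * 2 := by
      rw [← smul_eq_mul]; exact sum_le_card_nsmul _ _ _ h2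
    have := c2 han
    omega
  · push Not at han
    obtain ⟨e, he, hae⟩ := han
    have d4 : ∑ e ∈ I, (touch e).card < ∑ _e ∈ I, 2 :=
      sum_lt_sum h2 ⟨e, he, by have := h1 e he hae; omega⟩
    rw [sum_const, smul_eq_mul] at d4
    omega

/-- The vertices touched by an edge used in a given mode. -/
def touch (p q : ι → V) (m : ι → Option V) (e : ι) : Finset V :=
  match m e with
  | none => {p e, q e}
  | some u => {u}

omit [Fintype V] in
lemma extract (p q : ι → V) (m : ι → Option V) (cl : V → V) (t0 : V) :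
    ∀ (n : ℕ) (I : Finset ι), I.card = n →
    (∀ e ∈ I, m e = none → cl (p e) = cl (q e)) →
    (∀ J ⊆ I, J.card ≤ (J.biUnion (touch p q m)).card) →
    (∀ J ⊆ I, J.Nonempty → (∀ e ∈ J, m e = none) → J.card + 1 ≤ (J.biUnion (touch p q m)).card) →
    ∃ (tail : ι → V) (h : V → ℕ), (∀ e ∈ I, ∀ e' ∈ I, tail e = tail e' → e = e') ∧
      (∀ e ∈ I, tail e ∈ touch p q m e) ∧
      (∀ e ∈ I, m e = none →
        (tail e = p e ∧ h (q e) < h (p e)) ∨ (tail e = q e ∧ h (p e) < h (q e))) ∧
      ∀ v, h v ≤ ((I.image tail).filter (fun w => cl w = cl v)).card := by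
  intro n
  induction n with
  | zero =>
    intro I hI _ _ _
    rw [card_eq_zero] at hI
    subst hI
    exact ⟨fun _ => t0, fun _ => 0, by simp, by simp, by simp, by simp⟩
  | succ n ih =>
    intro I hI hcl c1 c2
    have hne : I.Nonempty := card_pos.mp (by omega)
    obtain ⟨e, he, u, hu, hleaf⟩ := exists_leaf I (touch p q m) (fun e => m e ≠ none)
      (by
        intro e _
        unfold touch
        split
        · exact card_le_two
        · simp)
      (by
        intro e _ h
        unfold touch
        split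
        · contradiction
        · simp)
      (c1 I Subset.rfl) (fun h => c2 I Subset.rfl hne (fun e he => by simpa using h e he))
    obtain ⟨tail, h, i1, i2, i3, i4⟩ := ih (I.erase e) (by rw [card_erase_of_mem he]; omega)
      (fun e' he' => hcl e' (mem_of_mem_erase he'))
      (fun J hJ => c1 J (hJ.trans (erase_subset _ _)))
      (fun J hJ => c2 J (hJ.trans (erase_subset _ _)))
    have hu_tail : ∀ e' ∈ I.erase e, tail e' ≠ u := by
      intro e' he' h
      exact hleaf e' (mem_of_mem_erase he') (ne_of_mem_erase he') (h ▸ i2 e' he')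
    have himg : I.image (Function.update tail e u) = insert u ((I.erase e).image tail) := by
      conv_lhs => rw [← insert_erase he]
      rw [image_insert, Function.update_self]
      congr 1
      refine image_congr (fun e' he' => ?_)
      exact Function.update_of_ne (ne_of_mem_erase he') _ _
    have hinj : ∀ e1 ∈ I, ∀ e2 ∈ I,
        Function.update tail e u e1 = Function.update tail e u e2 → e1 = e2 := by
      intro e1 h1 e2 h2 h
      by_cases a1 : e1 = e <;> by_cases a2 : e2 = e
      · rw [a1, a2]
      · rw [a1, Function.update_self, Function.update_of_ne a2] at h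
        exact absurd h.symm (hu_tail e2 (mem_erase.mpr ⟨a2, h2⟩))
      · rw [a2, Function.update_self, Function.update_of_ne a1] at h
        exact absurd h (hu_tail e1 (mem_erase.mpr ⟨a1, h1⟩))
      · rw [Function.update_of_ne a1, Function.update_of_ne a2] at h
        exact i1 e1 (mem_erase.mpr ⟨a1, h1⟩) e2 (mem_erase.mpr ⟨a2, h2⟩) h
    have htouch : ∀ e1 ∈ I, Function.update tail e u e1 ∈ touch p q m e1 := by
      intro e1 h1
      by_cases a1 : e1 = e
      · rw [a1, Function.update_self]; exact hu
      · rw [Function.update_of_ne a1]; exact i2 e1 (mem_erase.mpr ⟨a1, h1⟩)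
    have hmono : ∀ v, h v ≤
        ((I.image (Function.update tail e u)).filter (fun w => cl w = cl v)).card := by
      intro v
      refine (i4 v).trans (card_le_card (filter_subset_filter _ ?_))
      rw [himg]; exact subset_insert _ _
    by_cases hm : m e = none
    · have hpq : p e ≠ q e := by
        intro hpq
        have := c2 {e} (by simpa using he) (by simp) (by simpa using hm)
        simp [touch, hm, hpq] at this
      obtain ⟨o, ho, hou, hclo⟩ : ∃ o, ((u = p e ∧ o = q e) ∨ (u = q e ∧ o = p e)) ∧ o ≠ u ∧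
          cl o = cl u := by
        have hu' : u = p e ∨ u = q e := by simpa [touch, hm] using hu
        rcases hu' with h1 | h1
        · exact ⟨q e, Or.inl ⟨h1, rfl⟩, by rw [h1]; exact hpq.symm, by rw [h1, hcl e he hm]⟩
        · exact ⟨p e, Or.inr ⟨h1, rfl⟩, by rw [h1]; exact hpq, by rw [h1, hcl e he hm]⟩
      refine ⟨Function.update tail e u, Function.update h u (h o + 1), hinj, htouch, ?_, ?_⟩
      · intro e1 h1 hm1
        by_cases a1 : e1 = e
        · rw [a1, Function.update_self]
          rcases ho with ⟨h2, h3⟩ | ⟨h2, h3⟩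
          · left
            refine ⟨h2, ?_⟩
            rw [← h2, ← h3, Function.update_self, Function.update_of_ne hou]
            omega
          · right
            refine ⟨h2, ?_⟩
            rw [← h2, ← h3, Function.update_self, Function.update_of_ne hou]
            omega
        · have h3 := hleaf e1 h1 a1
          have h4 : p e1 ≠ u := by rintro rfl; exact h3 (by simp [touch, hm1])
          have h5 : q e1 ≠ u := by rintro rfl; exact h3 (by simp [touch, hm1])
          rw [Function.update_of_ne a1, Function.update_of_ne h4, Function.update_of_ne h5]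
          exact i3 e1 (mem_erase.mpr ⟨a1, h1⟩) hm1
      · intro v
        by_cases hv : v = u
        · rw [hv, Function.update_self, himg, filter_insert, if_pos rfl, card_insert_of_notMem]
          · have := i4 o
            rw [hclo] at this
            omega
          · intro h1
            obtain ⟨e', he', h2⟩ := mem_image.mp (mem_filter.mp h1).1
            exact hu_tail e' he' h2
        · rw [Function.update_of_ne hv]; exact hmono v
    · refine ⟨Function.update tail e u, h, hinj, htouch, ?_, hmono⟩
      intro e1 h1 hm1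
      have a1 : e1 ≠ e := by rintro rfl; exact hm hm1
      rw [Function.update_of_ne a1]
      exact i3 e1 (mem_erase.mpr ⟨a1, h1⟩) hm1

/-- The vector of an edge used in a given mode. -/
def vec (p q : ι → V) (e : ι) : Option V → (V → ZMod 2)
  | none => dl (p e) + dl (q e)
  | some u => dl u

/-- The span of all the vectors allowed for the edges of `X`. -/
def spn (p q : ι → V) (al : ι → Option V → Prop) (X : Finset ι) :
    Submodule (ZMod 2) (V → ZMod 2) :=
  Submodule.span (ZMod 2) {w | ∃ e ∈ X, ∃ m, al e m ∧ w = vec p q e m}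

omit [Fintype V] [DecidableEq ι] in
lemma mem_spn_int {p q : ι → V} {al : ι → Option V → Prop} {X : Finset ι} {e : ι} (he : e ∈ X)
    (h : al e none) : dl (p e) + dl (q e) ∈ spn p q al X :=
  Submodule.subset_span ⟨e, he, none, h, rfl⟩

omit [Fintype V] [DecidableEq ι] in
lemma mem_spn_anch {p q : ι → V} {al : ι → Option V → Prop} {X : Finset ι} {e : ι} (he : e ∈ X)
    {u : V} (h : al e (some u)) : dl u ∈ spn p q al X :=
  Submodule.subset_span ⟨e, he, some u, h, rfl⟩

lemma all_of_conn {C : Type} [Fintype C] (E : Finset ι) (p q : ι → V)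
    (al : C → ι → Option V → Prop) (supp : ι → Finset V)
    (hI : ∀ c, ∀ e ∈ E, al c e none → p e ∈ supp e ∧ q e ∈ supp e)
    (hA : ∀ c, ∀ e ∈ E, ∀ u, al c e (some u) → u ∈ supp e)
    (hyp : ∀ X ⊆ E, X.Nonempty → Conn supp X →
      X.card ≤ ∑ c, finrank (ZMod 2) (spn p q (al c) X)) :
    ∀ X ⊆ E, X.card ≤ ∑ c, finrank (ZMod 2) (spn p q (al c) X) := by
  have van : ∀ c, ∀ X ⊆ E, ∀ v, (∀ e ∈ X, v ∉ supp e) → ∀ w ∈ spn p q (al c) X, w v = 0 := by
    intro c X hX v hv
    apply span_vanish
    rintro w ⟨e, he, m, hm, rfl⟩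
    cases m with
    | none =>
      have h1 := hI c e (hX he) hm
      have h2 : v ≠ p e := by rintro rfl; exact hv e he h1.1
      have h3 : v ≠ q e := by rintro rfl; exact hv e he h1.2
      simp [vec, dl_ne h2, dl_ne h3]
    | some u =>
      have h1 := hA c e (hX he) u hm
      have h2 : v ≠ u := by rintro rfl; exact hv e he h1
      simp [vec, dl_ne h2]
  intro X
  induction X using Finset.strongInduction with
  | H X ih =>
  intro hX
  rcases X.eq_empty_or_nonempty with rfl | hne
  · simp
  by_cases hc : Conn supp X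
  · exact hyp X hX hne hc
  unfold Conn at hc
  push Not at hc
  obtain ⟨T, hT, hTne, hTX, hdis⟩ := hc
  have h1 := ih T (Finset.ssubset_iff_subset_ne.mpr ⟨hT, hTX⟩) (hT.trans hX)
  have h2 := ih (X \ T) (sdiff_ssubset hT hTne) (sdiff_subset.trans hX)
  have h3 : ∀ c, finrank (ZMod 2) (spn p q (al c) T) + finrank (ZMod 2) (spn p q (al c) (X \ T)) ≤
      finrank (ZMod 2) (spn p q (al c) X) := by
    intro c
    have h4 : spn p q (al c) T ⊓ spn p q (al c) (X \ T) = ⊥ := by
      rw [eq_bot_iff]
      intro w hw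
      rw [Submodule.mem_bot]
      funext v
      by_cases hv : ∀ e ∈ T, v ∉ supp e
      · exact van c T (hT.trans hX) v hv w hw.1
      · push Not at hv
        obtain ⟨e, he, hv⟩ := hv
        exact van c (X \ T) (sdiff_subset.trans hX) v
          (fun e' he' => hdis e he e' (mem_sdiff.mp he').1 (mem_sdiff.mp he').2 v hv) w hw.2
    have h5 := Submodule.finrank_sup_add_finrank_inf_eq (spn p q (al c) T) (spn p q (al c) (X \ T))
    rw [h4, finrank_bot, add_zero] at h5
    rw [← h5]
    refine Submodule.finrank_mono (sup_le (Submodule.span_mono ?_) (Submodule.span_mono ?_))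
    · rintro w ⟨e, he, h⟩; exact ⟨e, hT he, h⟩
    · rintro w ⟨e, he, h⟩; exact ⟨e, (mem_sdiff.mp he).1, h⟩
  have h6 := sum_le_sum (s := univ) (fun c _ => h3 c)
  rw [sum_add_distrib] at h6
  have h7 := card_sdiff_add_card_eq_card hT
  omega

/-- The covering theorem. -/
theorem cover {C : Type} [Fintype C] [Nonempty C] (t0 : V) (E : Finset ι) (p q : ι → V)
    (al : C → ι → Option V → Prop) (supp : ι → Finset V) (cl : C → V → V)
    (hI : ∀ c, ∀ e ∈ E, al c e none → p e ∈ supp e ∧ q e ∈ supp e)
    (hA : ∀ c, ∀ e ∈ E, ∀ u, al c e (some u) → u ∈ supp e)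
    (hcl : ∀ c, ∀ e ∈ E, al c e none → cl c (p e) = cl c (q e))
    (hyp : ∀ X ⊆ E, X.Nonempty → Conn supp X →
      X.card ≤ ∑ c, finrank (ZMod 2) (spn p q (al c) X)) :
    ∃ (col : ι → C) (tail : ι → V) (h : C → V → ℕ),
      (∀ e ∈ E, ∀ e' ∈ E, col e = col e' → tail e = tail e' → e = e') ∧
      (∀ e ∈ E, (al (col e) e none ∧ ((tail e = p e ∧ h (col e) (q e) < h (col e) (p e)) ∨
          (tail e = q e ∧ h (col e) (p e) < h (col e) (q e)))) ∨ al (col e) e (some (tail e))) ∧
      ∀ c v, h c v ≤ (univ.filter (fun w => cl c w = cl c v)).card := by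
  classical
  have hall := all_of_conn E p q al supp hI hA hyp
  rcases E.eq_empty_or_nonempty with rfl | ⟨e0, _⟩
  · exact ⟨fun _ => Classical.arbitrary C, fun _ => t0, fun _ _ => 0, by simp, by simp, by simp⟩
  let _inh : Inhabited (ι × C × Option V) := ⟨(e0, Classical.arbitrary C, none)⟩
  let U : C → Finset (ι × C × Option V) → Submodule (ZMod 2) (V → ZMod 2) := fun c Z =>
    Submodule.span (ZMod 2) {w | ∃ z ∈ Z, z.2.1 = c ∧ w = vec p q z.1 z.2.2}
  have Umono : ∀ c s t, s ⊆ t → U c s ≤ U c t := by
    intro c s t h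
    refine Submodule.span_mono ?_
    rintro w ⟨z, hz, h'⟩
    exact ⟨z, h hz, h'⟩
  let A : ι → Finset (ι × C × Option V) := fun e =>
    (univ.filter (fun x : C × Option V => al x.1 e x.2)).image (fun x => (e, x))
  obtain ⟨a, ha, hb⟩ := rado E (fun Z => ∑ c, finrank (ZMod 2) (U c Z))
    (by
      refine sum_eq_zero (fun c _ => ?_)
      simp [U])
    (fun s t h => sum_le_sum (fun c _ => Submodule.finrank_mono (Umono c s t h)))
    (by
      intro s t
      rw [← sum_add_distrib, ← sum_add_distrib]
      refine sum_le_sum (fun c _ => ?_)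
      rw [← Submodule.finrank_sup_add_finrank_inf_eq (U c s) (U c t)]
      refine add_le_add (Submodule.finrank_mono (Submodule.span_le.mpr ?_))
        (Submodule.finrank_mono (le_inf (Umono c _ _ inter_subset_left)
          (Umono c _ _ inter_subset_right)))
      rintro w ⟨z, hz, h'⟩
      rcases mem_union.mp hz with hz | hz
      · exact Submodule.mem_sup_left (Submodule.subset_span ⟨z, hz, h'⟩)
      · exact Submodule.mem_sup_right (Submodule.subset_span ⟨z, hz, h'⟩))
    _ A rfl (by
      intro J hJ
      refine (hall J hJ).trans (sum_le_sum (fun c _ => Submodule.finrank_mono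
        (Submodule.span_mono ?_)))
      rintro w ⟨e, he, m, hm, rfl⟩
      exact ⟨(e, c, m), mem_biUnion.mpr ⟨e, he, mem_image.mpr ⟨(c, m), by simpa using hm, rfl⟩⟩,
        rfl, rfl⟩)
  have ha1 : ∀ e ∈ E, (a e).1 = e ∧ al (a e).2.1 e (a e).2.2 := by
    intro e he
    obtain ⟨x, hx, h⟩ := mem_image.mp (ha e he)
    rw [← h]
    exact ⟨rfl, (mem_filter.mp hx).2⟩
  have hb1 : ∀ c, ∀ J ⊆ E.filter (fun e => (a e).2.1 = c),
      J.card ≤ finrank (ZMod 2) (U c (J.image a)) := by
    intro c J hJ
    refine (hb J (hJ.trans (filter_subset _ _))).trans (le_of_eq ?_)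
    refine sum_eq_single c (fun c' _ hc => ?_) (by simp)
    have : U c' (J.image a) = ⊥ := by
      refine Submodule.span_eq_bot.mpr ?_
      rintro w ⟨z, hz, h1, _⟩
      obtain ⟨e, he, rfl⟩ := mem_image.mp hz
      exact absurd (h1.symm.trans (mem_filter.mp (hJ he)).2) hc
    rw [this, finrank_bot]
  have hvan : ∀ c, ∀ J ⊆ E, ∀ w ∈ U c (J.image a), ∀ v,
      v ∉ J.biUnion (touch p q (fun e => (a e).2.2)) → w v = 0 := by
    intro c J hJ w hw v hv
    refine span_vanish _ v ?_ w hw
    rintro w ⟨z, hz, _, rfl⟩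
    obtain ⟨e, he, rfl⟩ := mem_image.mp hz
    have h1 : v ∉ touch p q (fun e => (a e).2.2) e := fun h => hv (mem_biUnion.mpr ⟨e, he, h⟩)
    rw [(ha1 e (hJ he)).1]
    unfold touch at h1
    cases hm : (a e).2.2 with
    | none =>
      simp only [hm, mem_insert, mem_singleton, not_or] at h1
      simp [vec, dl_ne h1.1, dl_ne h1.2]
    | some u =>
      simp only [hm, mem_singleton] at h1
      simp [vec, dl_ne h1]
  have hex := fun c => extract p q (fun e => (a e).2.2) (cl c) t0 _
    (E.filter (fun e => (a e).2.1 = c)) rfl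
    (by
      intro e he hm
      have h1 := (ha1 e (mem_filter.mp he).1).2
      rw [(mem_filter.mp he).2, hm] at h1
      exact hcl c e (mem_filter.mp he).1 h1)
    (fun J hJ => (hb1 c J hJ).trans (ub_supp _ _ (hvan c J (hJ.trans (filter_subset _ _)))))
    (by
      intro J hJ hne hm
      refine le_trans (Nat.succ_le_succ (hb1 c J hJ)) (ub_supp_sum _ _ ?_
        (hvan c J (hJ.trans (filter_subset _ _))) ?_)
      · obtain ⟨e, he⟩ := hne
        exact ⟨p e, mem_biUnion.mpr ⟨e, he, by simp [touch, hm e he]⟩⟩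
      · have : U c (J.image a) ≤ LinearMap.ker sg := by
          refine Submodule.span_le.mpr ?_
          rintro w ⟨z, hz, _, rfl⟩
          obtain ⟨e, he, rfl⟩ := mem_image.mp hz
          rw [hm e he]
          exact sg_pair _ _
        exact fun w hw => this hw)
  choose tl h i1 i2 i3 i4 using hex
  refine ⟨fun e => (a e).2.1, fun e => tl (a e).2.1 e, h, ?_, ?_, ?_⟩
  · intro e he e' he' hc ht
    simp only at hc ht
    rw [← hc] at ht
    exact i1 _ e (mem_filter.mpr ⟨he, rfl⟩) e' (mem_filter.mpr ⟨he', hc.symm⟩) ht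
  · intro e he
    have h1 := (ha1 e he).2
    have h2 := i2 _ e (mem_filter.mpr ⟨he, rfl⟩)
    have h3 := i3 _ e (mem_filter.mpr ⟨he, rfl⟩)
    cases hm : (a e).2.2 with
    | none =>
      rw [hm] at h1
      exact Or.inl ⟨h1, h3 hm⟩
    | some u =>
      rw [hm] at h1
      right
      have : tl (a e).2.1 e = u := by simpa [touch, hm] using h2
      simp only
      rw [this]; exact h1
  · intro c v
    exact (i4 c v).trans (card_le_card (filter_subset_filter _ (subset_univ _)))

end Pool.Agent.MP_d3e607_co
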