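import Mathlib

set_option autoImplicit false

namespace Pool.Agent.MP_d3e607_co

open Finset

variable {V : Type} [DecidableEq V] (G : SimpleGraph V) [DecidableRel G.Adj]

/-- Ordered adjacent pairs inside a set. -/
def prs (S : Finset V) : Finset (V × V) := (S ×ˢ S).filter (fun x => G.Adj x.1 x.2)

omit [DecidableEq V] in
lemma prs_card (U : Finset V) : (prs G U).card = ∑ v ∈ U, (U.filter (fun w => G.Adj v w)).card := by
  unfold prs
  rw [card_filter, sum_product]
  simp only [card_filter]

theorem levels (k q : ℕ) (hq : 1 ≤ q)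
    (H2 : ∀ S : Finset V, q * (prs G S).card + 4 * S.card ≤ 2 * (q * k * S.card)) (U : Finset V) :
    ∃ lev : V → ℕ,
      (∀ v ∈ U, (U.filter (fun w => G.Adj v w ∧ lev w = lev v)).card ≤ 2 * q * k * k) ∧
      ∀ S ⊆ U, q * ((prs G U).filter (fun x =>
        (lev x.1 ≤ lev x.2 → x.1 ∈ S) ∧ (lev x.2 ≤ lev x.1 → x.2 ∈ S))).card + 2 * S.card ≤
        2 * (q * k * S.card) := by
  induction U using Finset.strongInduction with
  | H U ih =>
  rcases U.eq_empty_or_nonempty with rfl | hne
  · refine ⟨fun _ => 0, by simp, fun S hS => ?_⟩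
    rw [subset_empty.mp hS]
    simp [prs]
  set B0 := U.filter (fun v => 2 * q * k * k < (U.filter (fun w => G.Adj v w)).card) with hB0
  have h1 : B0.card * (2 * q * k * k + 1) ≤ (prs G U).card := by
    rw [prs_card, ← smul_eq_mul]
    refine (card_nsmul_le_sum B0 (fun v => (U.filter (fun w => G.Adj v w)).card) _
      (fun v hv => (mem_filter.mp hv).2)).trans ?_
    exact sum_le_sum_of_subset (filter_subset _ _)
  obtain ⟨B, hB, hmax⟩ := exists_max_image (U.powerset.filter (fun B => B0 ⊆ B))
    (fun B => ((q * (prs G B).card + 2 * B.card : ℕ) : ℤ) - (2 * (q * k * B.card) : ℕ))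
    ⟨B0, mem_filter.mpr ⟨mem_powerset.mpr (filter_subset _ _), Subset.rfl⟩⟩
  have hBU : B ⊆ U := mem_powerset.mp (mem_filter.mp hB).1
  have hB0B : B0 ⊆ B := (mem_filter.mp hB).2
  have h2 : B.card ≤ q * k * B0.card := by
    have a1 := hmax B0 (mem_filter.mpr ⟨mem_powerset.mpr (filter_subset _ _), Subset.rfl⟩)
    have a2 := H2 B
    omega
  have h3 : B ≠ U := by
    intro h
    rw [h] at h2
    have a1 := H2 U
    have a2 : (prs G U).card ≤ 2 * (k * U.card) := by
      have : q * (prs G U).card ≤ q * (2 * (k * U.card)) := by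
        have : q * (2 * (k * U.card)) = 2 * (q * k * U.card) := by ring
        omega
      exact Nat.le_of_mul_le_mul_left this hq
    have a3 : 2 * (k * U.card) ≤ B0.card * (2 * q * k * k) := by
      have := Nat.mul_le_mul_left (2 * k) h2
      calc 2 * (k * U.card) = 2 * k * U.card := by ring
        _ ≤ 2 * k * (q * k * B0.card) := this
        _ = _ := by ring
    have a4 : B0.card = 0 := by
      rw [mul_add, mul_one] at h1
      omega
    rw [a4, mul_zero] at h2
    have := card_pos.mpr hne
    omega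
  obtain ⟨l, l1, l2⟩ := ih B (Finset.ssubset_iff_subset_ne.mpr ⟨hBU, h3⟩)
  refine ⟨fun v => if v ∈ B then l v + 1 else 0, ?_, ?_⟩
  · intro v hv
    by_cases hvB : v ∈ B
    · refine le_trans (card_le_card ?_) (l1 v hvB)
      intro w hw
      obtain ⟨_, a1, a2⟩ := mem_filter.mp hw
      simp only [hvB, if_true] at a2
      by_cases hwB : w ∈ B
      · simp only [hwB, if_true] at a2
        exact mem_filter.mpr ⟨hwB, a1, by omega⟩
      · simp [hwB] at a2
    · have a1 : v ∉ B0 := fun h => hvB (hB0B h)
      rw [hB0, mem_filter, not_and, not_lt] at a1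
      refine le_trans (card_le_card ?_) (a1 hv)
      intro w hw
      obtain ⟨a2, a3, _⟩ := mem_filter.mp hw
      exact mem_filter.mpr ⟨a2, a3⟩
  · intro S hS
    have a1 := l2 (S ∩ B) inter_subset_right
    have a2 := hmax (B ∪ S \ B) (mem_filter.mpr ⟨mem_powerset.mpr
      (union_subset hBU (sdiff_subset.trans hS)), hB0B.trans subset_union_left⟩)
    have a3 : (B ∪ S \ B).card = B.card + (S \ B).card := card_union_of_disjoint disjoint_sdiff
    have a4 : S.card = (S ∩ B).card + (S \ B).card := (card_inter_add_card_sdiff S B).symm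
    have a5 : prs G B ⊆ prs G (B ∪ S \ B) :=
      filter_subset_filter _ (product_subset_product subset_union_left subset_union_left)
    have a6 := card_sdiff_add_card_eq_card a5
    have a7 : (prs G U).filter (fun x =>
        ((if x.1 ∈ B then l x.1 + 1 else 0) ≤ (if x.2 ∈ B then l x.2 + 1 else 0) → x.1 ∈ S) ∧
        ((if x.2 ∈ B then l x.2 + 1 else 0) ≤ (if x.1 ∈ B then l x.1 + 1 else 0) → x.2 ∈ S)) ⊆
        (prs G B).filter (fun x =>
          (l x.1 ≤ l x.2 → x.1 ∈ S ∩ B) ∧ (l x.2 ≤ l x.1 → x.2 ∈ S ∩ B)) ∪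
        (prs G (B ∪ S \ B) \ prs G B) := by
      intro x hx
      obtain ⟨b1, b2, b3⟩ := mem_filter.mp hx
      have b4 : G.Adj x.1 x.2 := (mem_filter.mp b1).2
      by_cases c1 : x.1 ∈ B <;> by_cases c2 : x.2 ∈ B <;>
        simp only [c1, c2, if_true, if_false] at b2 b3 <;>
        simp only [prs, mem_union, mem_filter, mem_sdiff, mem_product, mem_inter, c1, c2, b4]
      · left
        exact ⟨by simp, fun h => ⟨b2 (by omega), trivial⟩, fun h => ⟨b3 (by omega), trivial⟩⟩
      · right; simp [b3 (by omega)]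
      · right; simp [b2 (by omega)]
      · right; simp [b2 (by omega), b3 (by omega)]
    have a8 := (card_le_card a7).trans (card_union_le _ _)
    have a9 := Nat.mul_le_mul_left q a8
    rw [a3, ← a6] at a2
    rw [a4]
    simp only [mul_add] at a2 a9 ⊢
    omega

end Pool.Agent.MP_d3e607_co
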