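import Mathlib
import Pool.Agent.MP_d3e607_co.H94Rado

set_option autoImplicit false

namespace Pool.Agent.MP_d3e607_co

open Finset

lemma hall {ι α : Type} [DecidableEq ι] [DecidableEq α] [Inhabited α] (E : Finset ι)
    (A : ι → Finset α) (h : ∀ J ⊆ E, J.card ≤ (J.biUnion A).card) :
    ∃ a : ι → α, (∀ i ∈ E, a i ∈ A i) ∧ ∀ i ∈ E, ∀ j ∈ E, a i = a j → i = j := by
  obtain ⟨a, h1, h2⟩ := rado E Finset.card rfl (fun _ _ h => card_le_card h)
    (fun s t => (card_union_add_card_inter s t).le) _ A rfl h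
  refine ⟨a, h1, fun i hi j hj => ?_⟩
  exact fun h => card_image_iff.mp (le_antisymm card_image_le (h2 E Subset.rfl)) hi hj h

variable {V : Type} [Fintype V] [DecidableEq V]

/-- Weight put by an edge on a vertex. -/
noncomputable def Wt (m : ℕ) (x : V × V → ℝ) (e : V × V) (v : V) : ℝ :=
  if v = e.1 then x e else if v = e.2 then m - x e else 0

/-- Fractional orientations with small load. -/
def Feas (E : Finset (V × V)) (lev : V → ℕ) (m k : ℕ) (x : V × V → ℝ) : Prop :=
  (∀ e ∈ E, 0 ≤ x e ∧ x e ≤ m ∧ (lev e.1 ≠ lev e.2 → x e = m)) ∧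
    ∀ v, ∑ e ∈ E, Wt m x e v + 1 ≤ m * k

/-- The vertices that may own an edge. -/
def sup0 (lev : V → ℕ) (e : V × V) : Finset V := if lev e.1 = lev e.2 then {e.1, e.2} else {e.1}

/-- All the possible owners of the edges of `X` lie in `S`. -/
def Sub (lev : V → ℕ) (X : Finset (V × V)) (S : Finset V) : Prop :=
  ∀ e ∈ X, e.1 ∈ S ∧ (lev e.1 = lev e.2 → e.2 ∈ S)

omit [Fintype V] in
lemma sub_biUnion (lev : V → ℕ) (X : Finset (V × V)) : Sub lev X (X.biUnion (sup0 lev)) := by
  intro e he
  refine ⟨mem_biUnion.mpr ⟨e, he, ?_⟩, fun h => mem_biUnion.mpr ⟨e, he, ?_⟩⟩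
  · unfold sup0; split <;> simp
  · simp [sup0, h]

lemma exists_feas (t0 : V) (E : Finset (V × V)) (lev : V → ℕ) (m k : ℕ) (hmk : 1 ≤ m * k)
    (hne : ∀ e ∈ E, e.1 ≠ e.2)
    (Hb : ∀ X ⊆ E, ∀ S, Sub lev X S → m * X.card + S.card ≤ m * k * S.card) :
    ∃ x, Feas E lev m k x := by
  let _inh : Inhabited (V × ℕ) := ⟨(t0, 0)⟩
  obtain ⟨a, a1, a2⟩ := hall (E ×ˢ range m) (fun z => sup0 lev z.1 ×ˢ range (m * k - 1)) (by
    intro J hJ
    have h1 : J ⊆ J.image Prod.fst ×ˢ range m := by
      intro z hz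
      exact mem_product.mpr ⟨mem_image_of_mem _ hz, (mem_product.mp (hJ hz)).2⟩
    have h2 : (J.image Prod.fst).biUnion (sup0 lev) ×ˢ range (m * k - 1) ⊆
        J.biUnion (fun z => sup0 lev z.1 ×ˢ range (m * k - 1)) := by
      intro w hw
      obtain ⟨h3, h4⟩ := mem_product.mp hw
      obtain ⟨e, he, h3⟩ := mem_biUnion.mp h3
      obtain ⟨z, hz, rfl⟩ := mem_image.mp he
      exact mem_biUnion.mpr ⟨z, hz, mem_product.mpr ⟨h3, h4⟩⟩
    have h3 := Hb (J.image Prod.fst) (by
      intro e he
      obtain ⟨z, hz, rfl⟩ := mem_image.mp he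
      exact (mem_product.mp (hJ hz)).1) _ (sub_biUnion lev _)
    have h4 := card_le_card h1
    have h5 := card_le_card h2
    rw [card_product, card_range] at h4 h5
    rw [Nat.mul_sub, mul_one, mul_comm] at h5
    rw [mul_comm] at h4
    omega)
  have hs : ∀ e ∈ E, ∀ i ∈ range m, (a (e, i)).1 ∈ sup0 lev e := fun e he i hi =>
    (mem_product.mp (a1 (e, i) (mem_product.mpr ⟨he, hi⟩))).1
  refine ⟨fun e => (((range m).filter (fun i => (a (e, i)).1 = e.1)).card : ℝ), ?_, ?_⟩
  · intro e he
    refine ⟨Nat.cast_nonneg _, ?_, fun h => ?_⟩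
    · beta_reduce
      exact_mod_cast (card_filter_le _ _).trans (card_range m).le
    · beta_reduce
      rw [filter_true_of_mem, card_range]
      intro i hi
      simpa [sup0, h] using hs e he i hi
  · intro v
    have h1 : ∀ e ∈ E, Wt m (fun e => (((range m).filter (fun i => (a (e, i)).1 = e.1)).card : ℝ)) e v
        ≤ (((range m).filter (fun i => (a (e, i)).1 = v)).card : ℝ) := by
      intro e he
      unfold Wt
      split_ifs with h1 h2
      · rw [h1]
      · have h3 : range m ⊆ (range m).filter (fun i => (a (e, i)).1 = e.1) ∪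
            (range m).filter (fun i => (a (e, i)).1 = v) := by
          intro i hi
          have := hs e he i hi
          unfold sup0 at this
          split at this <;> simp only [mem_insert, mem_singleton] at this <;>
            simp only [mem_union, mem_filter, hi, true_and, h2] <;> tauto
        have h4 := (card_le_card h3).trans (card_union_le _ _)
        rw [card_range] at h4
        have h5 : (m : ℝ) ≤ (((range m).filter (fun i => (a (e, i)).1 = e.1)).card : ℝ) +
            (((range m).filter (fun i => (a (e, i)).1 = v)).card : ℝ) := by exact_mod_cast h4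
        linarith
      · exact Nat.cast_nonneg _
    have h2 : ∑ e ∈ E, ((range m).filter (fun i => (a (e, i)).1 = v)).card =
        ((E ×ˢ range m).filter (fun z => (a z).1 = v)).card := by
      rw [card_filter, sum_product]
      simp only [card_filter]
    have h3 : ((E ×ˢ range m).filter (fun z => (a z).1 = v)).card ≤ (range (m * k - 1)).card := by
      refine card_le_card_of_injOn (fun z => (a z).2) (fun z hz => ?_) (fun z hz z' hz' h => ?_)
      · exact (mem_product.mp (a1 z (mem_filter.mp hz).1)).2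
      · exact a2 z (mem_filter.mp hz).1 z' (mem_filter.mp hz').1
          (Prod.ext ((mem_filter.mp hz).2.trans (mem_filter.mp hz').2.symm) h)
    rw [card_range, ← h2] at h3
    have h4 : ∑ e ∈ E, ((range m).filter (fun i => (a (e, i)).1 = v)).card + 1 ≤ m * k := by omega
    have h5 : ∑ e ∈ E, (((range m).filter (fun i => (a (e, i)).1 = v)).card : ℝ) + 1 ≤ m * k := by
      exact_mod_cast h4
    linarith [sum_le_sum h1]

omit [Fintype V] in
lemma exists_circ (J : Finset (V × V)) (h : (J.biUnion (fun e => {e.1, e.2})).card < J.card) :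
    ∃ l : V × V → ℝ, (∀ e, e ∉ J → l e = 0) ∧ (∃ e ∈ J, l e ≠ 0) ∧
      ∀ v, ∑ e ∈ J, l e * (if v = e.1 then 1 else if v = e.2 then -1 else 0) = 0 := by
  let S := J.biUnion (fun e => ({e.1, e.2} : Finset V))
  let L : (J → ℝ) →ₗ[ℝ] (S → ℝ) := Matrix.mulVecLin (Matrix.of (fun (v : S) (e : J) =>
    if v.1 = e.1.1 then (1 : ℝ) else if v.1 = e.1.2 then -1 else 0))
  have hk : LinearMap.ker L ≠ ⊥ := LinearMap.ker_ne_bot_of_finrank_lt (by simpa using h)
  obtain ⟨l, hl, hl0⟩ := Submodule.exists_mem_ne_zero_of_ne_bot hk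
  refine ⟨fun e => if he : e ∈ J then l ⟨e, he⟩ else 0, fun e he => by simp [he], ?_, fun v => ?_⟩
  · by_contra hcon
    push Not at hcon
    apply hl0
    funext e
    simpa using hcon e.1 e.2
  · by_cases hv : v ∈ S
    · have := congrFun (LinearMap.mem_ker.mp hl) ⟨v, hv⟩
      rw [← sum_attach J]
      simp only [L, Matrix.mulVecLin_apply, Matrix.mulVec, dotProduct, Matrix.of_apply,
        Pi.zero_apply] at this
      refine Eq.trans (sum_congr rfl (fun e _ => ?_)) this
      simp only [e.2, dif_pos]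
      exact mul_comm _ _
    · refine sum_eq_zero (fun e he => ?_)
      have h1 : v ≠ e.1 := by rintro rfl; exact hv (mem_biUnion.mpr ⟨e, he, by simp⟩)
      have h2 : v ≠ e.2 := by rintro rfl; exact hv (mem_biUnion.mpr ⟨e, he, by simp⟩)
      simp [h1, h2]

open Classical in
/-- The fractional edges. -/
noncomputable def Fr (E : Finset (V × V)) (m : ℕ) (x : V × V → ℝ) : Finset (V × V) :=
  E.filter (fun e => 0 < x e ∧ x e < m)

omit [Fintype V] in
lemma feas_shift (E : Finset (V × V)) (lev : V → ℕ) (m k : ℕ) (x : V × V → ℝ)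
    (hx : Feas E lev m k x) (J : Finset (V × V)) (hJ : J ⊆ Fr E m x)
    (h : (J.biUnion (fun e => {e.1, e.2})).card < J.card) :
    ∃ x', Feas E lev m k x' ∧ (Fr E m x').card < (Fr E m x).card := by
  classical
  obtain ⟨l, l1, ⟨e1, he1, l2⟩, l3⟩ := exists_circ J h
  have hfr : ∀ e ∈ J, e ∈ E ∧ 0 < x e ∧ x e < m := fun e he => by
    simpa [Fr] using hJ he
  obtain ⟨e0, he0, hmin⟩ := exists_min_image (J.filter (fun e => l e ≠ 0))
    (fun e => if 0 < l e then (m - x e) / l e else x e / (- l e)) ⟨e1, mem_filter.mpr ⟨he1, l2⟩⟩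
  obtain ⟨he0J, hl0⟩ := mem_filter.mp he0
  set t := (if 0 < l e0 then (m - x e0) / l e0 else x e0 / (- l e0)) with ht
  have ht0 : 0 ≤ t := by
    have := hfr e0 he0J
    rw [ht]
    split_ifs with h1
    · exact div_nonneg (by linarith) h1.le
    · exact div_nonneg (by linarith) (by linarith)
  have hb : ∀ e ∈ J, 0 ≤ x e + t * l e ∧ x e + t * l e ≤ m := by
    intro e he
    have h1 := hfr e he
    rcases lt_trichotomy (l e) 0 with h2 | h2 | h2
    · have h3 := hmin e (mem_filter.mpr ⟨he, h2.ne⟩)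
      rw [if_neg (by linarith), le_div_iff₀ (by linarith)] at h3
      constructor <;> nlinarith
    · rw [h2]; constructor <;> linarith
    · have h3 := hmin e (mem_filter.mpr ⟨he, h2.ne'⟩)
      rw [if_pos h2, le_div_iff₀ h2] at h3
      constructor <;> nlinarith
  refine ⟨fun e => x e + t * l e, ⟨fun e he => ?_, fun v => ?_⟩, ?_⟩
  · by_cases heJ : e ∈ J
    · refine ⟨(hb e heJ).1, (hb e heJ).2, fun h1 => ?_⟩
      have := (hx.1 e he).2.2 h1
      have := hfr e heJ
      linarith
    · simpa [l1 e heJ] using hx.1 e he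
  · have h1 : ∀ e ∈ E, Wt m (fun e => x e + t * l e) e v =
        Wt m x e v + t * (l e * (if v = e.1 then 1 else if v = e.2 then -1 else 0)) := by
      intro e _
      unfold Wt
      split_ifs <;> ring
    have h2 : ∑ e ∈ E, l e * (if v = e.1 then 1 else if v = e.2 then -1 else 0) = 0 := by
      rw [← sum_subset (s₁ := J) (fun e he => (hfr e he).1) (fun e _ he => by simp [l1 e he]), l3 v]
    rw [sum_congr rfl h1, sum_add_distrib, ← mul_sum, h2]
    simpa using hx.2 v
  · refine card_lt_card ⟨fun e he => ?_, fun hsub => ?_⟩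
    · by_cases heJ : e ∈ J
      · exact hJ heJ
      · simpa [Fr, l1 e heJ] using he
    · have h1 := hsub (hJ he0J)
      simp only [Fr, mem_filter] at h1
      by_cases h2 : 0 < l e0
      · rw [if_pos h2] at ht
        have : t * l e0 = m - x e0 := by rw [ht]; field_simp
        linarith [h1.2.2]
      · rw [if_neg h2] at ht
        have : t * l e0 = - x e0 := by rw [ht]; field_simp
        linarith [h1.2.1]

/-- The edge is an arc of the parent map. -/
def InF (par : V → V) (e : V × V) : Prop := par e.1 = e.2 ∨ par e.2 = e.1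

/-- Adjacency in a set of pairs. -/
def Ad (E : Finset (V × V)) (u v : V) : Prop := (u, v) ∈ E ∨ (v, u) ∈ E

theorem pseudo (t0 : V) (E : Finset (V × V)) (lev : V → ℕ) (m k : ℕ) (hm : 1 ≤ m) (hk : 1 ≤ k)
    (hne : ∀ e ∈ E, e.1 ≠ e.2)
    (Hb : ∀ X ⊆ E, ∀ S, Sub lev X S → m * X.card + S.card ≤ m * k * S.card) :
    ∃ (par : V → V) (φ : V → ℕ), (∀ v, φ v ≤ m) ∧
      (∀ u, par u ≠ u → φ (par u) < φ u ∧ Ad E u (par u) ∧ lev (par u) = lev u) ∧
      ∀ X ⊆ E, (∀ e ∈ X, ¬ InF par e) → ∀ S, Sub lev X S → X.card ≤ (k - 1) * S.card := by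
  classical
  have hex : ∃ n, ∃ x, Feas E lev m k x ∧ (Fr E m x).card = n := by
    obtain ⟨x, hx⟩ := exists_feas t0 E lev m k (Nat.mul_pos hm hk) hne Hb
    exact ⟨_, x, hx, rfl⟩
  obtain ⟨x, hx, hn⟩ := Nat.find_spec hex
  let _inh : Inhabited V := ⟨t0⟩
  obtain ⟨o, o1, o2⟩ := hall (Fr E m x) (fun e => {e.1, e.2}) (by
    intro J hJ
    by_contra hcon
    obtain ⟨x', h1, h2⟩ := feas_shift E lev m k x hx J hJ (not_le.mp hcon)
    exact Nat.find_min hex (hn ▸ h2) ⟨x', h1, rfl⟩)
  have hfr : ∀ e ∈ Fr E m x, e ∈ E ∧ 0 < x e ∧ x e < m := fun e he => by simpa [Fr] using he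
  have hflat : ∀ e ∈ Fr E m x, lev e.1 = lev e.2 := by
    intro e he
    by_contra h
    have := (hx.1 e (hfr e he).1).2.2 h
    have := hfr e he
    linarith
  have hW0 : ∀ e ∈ E, ∀ v, 0 ≤ Wt m x e v := by
    intro e he v
    have := hx.1 e he
    unfold Wt
    split_ifs <;> linarith
  let own : V × V → V := fun e => if e ∈ Fr E m x then o e else if x e = m then e.1 else e.2
  let I : V → Finset (V × V) := fun v => (E \ Fr E m x).filter (fun e => own e = v)
  have hI : ∀ v, ∀ e ∈ I v, Wt m x e v = m := by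
    intro v e he
    obtain ⟨h1, h2⟩ := mem_filter.mp he
    obtain ⟨h3, h4⟩ := mem_sdiff.mp h1
    simp only [own, h4, if_false] at h2
    by_cases h5 : x e = m
    · rw [if_pos h5] at h2
      simp [Wt, ← h2, h5]
    · rw [if_neg h5] at h2
      have h6 := hx.1 e h3
      have h7 : x e = 0 := by
        by_contra h8
        exact h4 (by
          simp only [Fr, mem_filter]
          exact ⟨h3, lt_of_le_of_ne h6.1 (Ne.symm h8), lt_of_le_of_ne h6.2.1 h5⟩)
      simp [Wt, ← h2, (hne e h3).symm, h7]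
  have hload : ∀ v, ∀ T ⊆ Fr E m x, (m : ℝ) * (I v).card + ∑ e ∈ T, Wt m x e v + 1 ≤ m * k := by
    intro v T hT
    have h1 : Disjoint (I v) T := by
      rw [disjoint_left]
      intro e he he'
      exact (mem_sdiff.mp (mem_filter.mp he).1).2 (hT he')
    have h2 : ∑ e ∈ I v ∪ T, Wt m x e v ≤ ∑ e ∈ E, Wt m x e v :=
      sum_le_sum_of_subset_of_nonneg (union_subset ((filter_subset _ _).trans sdiff_subset)
        (fun e he => (hfr e (hT he)).1)) (fun e he _ => hW0 e he v)
    rw [sum_union h1, sum_congr rfl (hI v), sum_const, nsmul_eq_mul, mul_comm] at h2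
    linarith [hx.2 v]
  have hIk : ∀ v, (I v).card ≤ k - 1 := by
    intro v
    have h1 := hload v ∅ (empty_subset _)
    rw [sum_empty] at h1
    have h2 : (m : ℝ) * (I v).card < m * k := by linarith
    have h3 : ((I v).card : ℝ) < k := lt_of_mul_lt_mul_left h2 (Nat.cast_nonneg _)
    have h4 : (I v).card < k := by exact_mod_cast h3
    omega
  let F0 := (Fr E m x).filter (fun e => (I (o e)).card = k - 1)
  have hsel : ∀ u, (∃ e ∈ F0, o e = u) → ∃ e, e ∈ F0 ∧ o e = u := fun _ h => h
  choose! sel s1 s2 using hsel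
  let par : V → V := fun u =>
    if ∃ e ∈ F0, o e = u then (if u = (sel u).1 then (sel u).2 else (sel u).1) else u
  let y : V → ℝ := fun u => if ∃ e ∈ F0, o e = u then Wt m x (sel u) u else 0
  have hends : ∀ u, (∃ e ∈ F0, o e = u) →
      (u = (sel u).1 ∧ par u = (sel u).2) ∨ (u = (sel u).2 ∧ par u = (sel u).1) := by
    intro u hu
    have h1 := o1 _ (mem_filter.mp (s1 u hu)).1
    rw [s2 u hu] at h1
    simp only [par, if_pos hu]
    by_cases h2 : u = (sel u).1
    · left; exact ⟨h2, by rw [if_pos h2]⟩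
    · right; exact ⟨by simpa [h2] using h1, by rw [if_neg h2]⟩
  have hW : ∀ u, (∃ e ∈ F0, o e = u) → 0 < y u ∧ y u < m ∧ Wt m x (sel u) (par u) = m - y u := by
    intro u hu
    have h1 := hfr _ (mem_filter.mp (s1 u hu)).1
    have h2 := hne _ h1.1
    simp only [y, if_pos hu]
    rcases hends u hu with ⟨h3, h4⟩ | ⟨h3, h4⟩
    · rw [h4]
      have : Wt m x (sel u) u = x (sel u) := by unfold Wt; rw [if_pos h3]
      rw [this]
      exact ⟨h1.2.1, h1.2.2, by simp [Wt, h2.symm]⟩
    · rw [h4]
      have : Wt m x (sel u) u = m - x (sel u) := by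
        unfold Wt; rw [if_neg (by rw [h3]; simpa [← h3] using fun h => h2 (h.symm.trans h3)), if_pos h3]
      rw [this]
      exact ⟨by linarith, by linarith, by simp [Wt]⟩
  refine ⟨par, fun u => ⌈y u⌉₊, fun v => ?_, fun u hu => ?_, fun X hX hF S hS => ?_⟩
  · rw [Nat.ceil_le]
    by_cases h : ∃ e ∈ F0, o e = v
    · exact (hW v h).2.1.le
    · simp only [y, if_neg h]; exact Nat.cast_nonneg _
  · have h : ∃ e ∈ F0, o e = u := by
      by_contra h
      exact hu (by simp only [par, if_neg h])
    have hE := (hfr _ (mem_filter.mp (s1 u h)).1).1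
    have hl := hflat _ (mem_filter.mp (s1 u h)).1
    refine ⟨?_, ?_, ?_⟩
    · by_cases h' : ∃ e ∈ F0, o e = par u
      · have h1 : sel u ≠ sel (par u) := by
          intro h2
          exact hu (by rw [← s2 _ h', ← h2, s2 u h])
        have h2 := hload (par u) {sel u, sel (par u)} (by
          intro e he
          rcases mem_insert.mp he with rfl | he
          · exact (mem_filter.mp (s1 u h)).1
          · rw [mem_singleton.mp he]; exact (mem_filter.mp (s1 _ h')).1)
        rw [sum_pair h1, (hW u h).2.2] at h2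
        have h3 := (mem_filter.mp (s1 _ h')).2
        rw [s2 _ h'] at h3
        have h4 : ((I (par u)).card : ℝ) = k - 1 := by rw [h3, Nat.cast_sub hk]; simp
        have h5 : y (par u) = Wt m x (sel (par u)) (par u) := by simp only [y, if_pos h']
        have h6 : y (par u) + 1 ≤ y u := by rw [h4] at h2; linarith
        have h7 := Nat.ceil_mono h6
        rw [Nat.ceil_add_one (hW _ h').1.le] at h7
        exact h7
      · have : y (par u) = 0 := by simp only [y, if_neg h']
        simp only [this, Nat.ceil_zero]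
        exact Nat.ceil_pos.mpr (hW u h).1
    · rcases hends u h with ⟨h3, h4⟩ | ⟨h3, h4⟩
      · left; rw [h4]; convert hE using 1; exact Prod.ext h3 rfl
      · right; rw [h4]; convert hE using 1; exact Prod.ext rfl h3
    · rcases hends u h with ⟨h3, h4⟩ | ⟨h3, h4⟩
      · rw [h4, ← hl, ← h3]
      · rw [h4, hl, ← h3]
  · have hnF : ∀ e ∈ X, e ∉ F0 := by
      intro e he h
      have h1 : ∃ e' ∈ F0, o e' = o e := ⟨e, h, rfl⟩
      have h2 : sel (o e) = e :=
        o2 _ (mem_filter.mp (s1 _ h1)).1 _ (mem_filter.mp h).1 (s2 _ h1)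
      apply hF e he
      rcases hends _ h1 with ⟨h3, h4⟩ | ⟨h3, h4⟩ <;> rw [h2] at h3 h4 <;> rw [h3] at h4
      · exact Or.inl h4
      · exact Or.inr h4
    refine card_le_mul_card_image_of_maps_to (f := own) (fun e he => ?_) _ (fun v _ => ?_)
    · have h1 := hS e he
      simp only [own]
      split_ifs with h2 h3
      · have := o1 e h2
        simp only [mem_insert, mem_singleton] at this
        rcases this with h | h <;> rw [h]
        · exact h1.1
        · exact h1.2 (hflat e h2)
      · exact h1.1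
      · exact h1.2 (by_contra fun h => h3 ((hx.1 e (hX he)).2.2 h))
    · by_cases h : ∃ e ∈ X, e ∈ Fr E m x ∧ o e = v
      · obtain ⟨e0, h1, h2, h3⟩ := h
        have h4 : (I v).card ≠ k - 1 := fun h => hnF e0 h1 (mem_filter.mpr ⟨h2, by rw [h3, h]⟩)
        have h5 : X.filter (fun e => own e = v) ⊆ insert e0 (I v) := by
          intro e he
          obtain ⟨h6, h7⟩ := mem_filter.mp he
          by_cases h8 : e ∈ Fr E m x
          · simp only [own, if_pos h8] at h7
            rw [o2 e h8 e0 h2 (h7.trans h3.symm)]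
            exact mem_insert_self _ _
          · exact mem_insert_of_mem (mem_filter.mpr ⟨mem_sdiff.mpr ⟨hX h6, h8⟩, h7⟩)
        have := (card_le_card h5).trans (card_insert_le _ _)
        have := hIk v
        omega
      · refine le_trans (card_le_card (fun e he => ?_)) (hIk v)
        obtain ⟨h6, h7⟩ := mem_filter.mp he
        refine mem_filter.mpr ⟨mem_sdiff.mpr ⟨hX h6, fun h8 => h ⟨e, h6, h8, ?_⟩⟩, h7⟩
        simpa only [own, if_pos h8] using h7

end Pool.Agent.MP_d3e607_co
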