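import Mathlib

set_option autoImplicit false

namespace Pool.Agent.MP_d3e607_co

open Finset

variable {V : Type} [DecidableEq V]

omit [DecidableEq V] in
lemma iter_fix (π : V → V) (φ : V → ℕ) (h : ∀ u, π u ≠ u → φ (π u) < φ u) :
    ∀ (n : ℕ) (v : V), φ v ≤ n → π (π^[n] v) = π^[n] v := by
  intro n
  induction n with
  | zero =>
    intro v hv
    by_contra hne
    have := h v hne
    omega
  | succ n ih =>
    intro v hv
    rw [Function.iterate_succ_apply]
    by_cases hf : π v = v
    · rw [hf, Function.iterate_fixed hf, hf]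
    · exact ih _ (by have := h v hf; omega)

omit [DecidableEq V] in
lemma iter_step (π : V → V) (φ : V → ℕ) (h : ∀ u, π u ≠ u → φ (π u) < φ u) (n : ℕ) (v : V)
    (hv : φ v ≤ n) : π^[n] (π v) = π^[n] v := by
  rw [← Function.iterate_succ_apply, Function.iterate_succ_apply', iter_fix π φ h n v hv]

omit [DecidableEq V] in
lemma iter_le (π : V → V) (φ : V → ℕ) (h : ∀ u, π u ≠ u → φ (π u) < φ u) :
    ∀ (n : ℕ) (v : V), φ (π^[n] v) ≤ φ v := by
  intro n
  induction n with
  | zero => intro v; rfl
  | succ n ih =>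
    intro v
    rw [Function.iterate_succ_apply]
    refine (ih _).trans ?_
    by_cases hf : π v = v
    · rw [hf]
    · exact (h v hf).le

omit [DecidableEq V] in
lemma iter_inv (π : V → V) (lev : V → ℕ) (h : ∀ u, lev (π u) = lev u) :
    ∀ (n : ℕ) (v : V), lev (π^[n] v) = lev v := by
  intro n
  induction n with
  | zero => intro v; rfl
  | succ n ih => intro v; rw [Function.iterate_succ_apply, ih, h]

lemma iter_card [Fintype V] (π : V → V) (K : ℕ)
    (h : ∀ t, (univ.filter (fun u => π u = t)).card ≤ K) :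
    ∀ (n : ℕ) (t : V), (univ.filter (fun u => π^[n] u = t)).card ≤ K ^ n := by
  intro n
  induction n with
  | zero =>
    intro t
    simp only [Function.iterate_zero, id_eq, pow_zero]
    rw [filter_eq']; simp
  | succ n ih =>
    intro t
    have : univ.filter (fun u => π^[n+1] u = t) ⊆
        (univ.filter (fun u => π^[n] u = t)).biUnion (fun w => univ.filter (fun u => π u = w)) := by
      intro u hu
      rw [mem_filter, Function.iterate_succ_apply] at hu
      exact mem_biUnion.mpr ⟨π u, mem_filter.mpr ⟨mem_univ _, hu.2⟩, by simp⟩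
    refine (card_le_card this).trans ((card_biUnion_le_card_mul _ _ K (fun w _ => h w)).trans ?_)
    rw [pow_succ]
    exact Nat.mul_le_mul_right _ (ih t)

lemma orders_aux (N D : ℕ) (up : V → V) (d lev : V → ℕ) (R : V → Finset V)
    (hd : ∀ t, d t ≤ D) (hup : ∀ t, up t ≠ t → d (up t) < d t ∧ lev t < lev (up t))
    (hN : ∀ t, (R t).card ≤ N)
    (hR : ∀ t, ∀ r ∈ R t, r ≠ t ∧ lev t ≤ lev r ∧ (lev r = lev t → t ∈ R r)) (Z : Finset V) :
    ∃ a : V → ℕ, (∀ t ∈ Z, a t + (N+3) ^ (D - d t) ≤ (N+3) ^ (D+1)) ∧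
      (∀ t ∈ Z, up t ≠ t → up t ∈ Z → a (up t) < a t ∧
        a t + (N+3) ^ (D - d t) < a (up t) + (N+3) ^ (D - d (up t))) ∧
      (∀ t ∈ Z, ∀ r ∈ R t, r ∈ Z → a r < a t ∨
        a t + (N+3) ^ (D - d t) < a r + (N+3) ^ (D - d r)) := by
  induction Z using Finset.induction_on_max_value
    (fun t => toLex ((-(lev t : ℤ)), (-(d t : ℤ)))) with
  | empty => exact ⟨fun _ => 0, by simp, by simp, by simp⟩
  | insert t Z ht hmax ih =>
    obtain ⟨a, a1, a2, a3⟩ := ih
    have hkey : ∀ x ∈ Z, lev t < lev x ∨ (lev t = lev x ∧ d t ≤ d x) := by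
      intro x hx
      have := hmax x hx
      rw [Prod.Lex.toLex_le_toLex] at this
      simp only at this
      omega
    have gpos : ∀ n, 0 < (N+3) ^ n := fun n => pow_pos (by omega) n
    obtain ⟨β, ρ, b1, b2, b3⟩ : ∃ β ρ : ℕ, β + ρ ≤ (N+3) ^ (D+1) ∧ (N+3) * (N+3) ^ (D - d t) ≤ ρ ∧
        (up t ≠ t → up t ∈ Z → β = a (up t) ∧ ρ = (N+3) ^ (D - d (up t))) := by
      by_cases h : up t ≠ t ∧ up t ∈ Z
      · refine ⟨a (up t), _, a1 _ h.2, ?_, fun _ _ => ⟨rfl, rfl⟩⟩
        rw [← pow_succ']
        have := (hup t h.1).1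
        have := hd t
        exact Nat.pow_le_pow_right (by omega) (by omega)
      · refine ⟨0, (N+3) ^ (D+1), by simp, ?_, fun h1 h2 => absurd ⟨h1, h2⟩ h⟩
        rw [← pow_succ']
        exact Nat.pow_le_pow_right (by omega) (by omega)
    obtain ⟨j, hj, hgood⟩ : ∃ j, j ≤ N ∧ ∀ r ∈ R t, a r < β + 1 + j * (N+3) ^ (D - d t) ∨
        β + 1 + j * (N+3) ^ (D - d t) + (N+3) ^ (D - d t) < a r + (N+3) ^ (D - d r) := by
      by_contra hcon
      push Not at hcon
      have _ne : Nonempty V := ⟨t⟩
      choose! f hf1 hf2 hf3 using hcon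
      have hlt : ∀ i j, i ≤ N → j ≤ N → i < j → f i ≠ f j := by
        intro i j hi hj hij heq
        have h1 := hf3 i hi
        have h2 := hf2 j hj
        rw [heq] at h1
        have h3 : (i + 1) * (N+3) ^ (D - d t) ≤ j * (N+3) ^ (D - d t) :=
          Nat.mul_le_mul_right _ hij
        have h4 := gpos (D - d (f j))
        rw [add_mul, one_mul] at h3
        omega
      have := card_le_card_of_injOn (s := range (N+1)) (t := R t) f
        (fun i hi => hf1 i (by simpa [Nat.lt_succ_iff] using hi))
        (fun i hi j hj h => by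
          have hi' : i ≤ N := by simpa [Nat.lt_succ_iff] using hi
          have hj' : j ≤ N := by simpa [Nat.lt_succ_iff] using hj
          rcases lt_trichotomy i j with h1 | h1 | h1
          · exact absurd h (hlt i j hi' hj' h1)
          · exact h1
          · exact absurd h.symm (hlt j i hj' hi' h1))
      have := hN t
      rw [card_range] at *
      omega
    have hroom : β + 1 + j * (N+3) ^ (D - d t) + (N+3) ^ (D - d t) < β + ρ := by
      have h3 : j * (N+3) ^ (D - d t) ≤ N * (N+3) ^ (D - d t) := Nat.mul_le_mul_right _ hj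
      have h4 := gpos (D - d t)
      rw [add_mul] at b2
      omega
    have hne : ∀ x ∈ Z, x ≠ t := by rintro x hx rfl; exact ht hx
    refine ⟨Function.update a t (β + 1 + j * (N+3) ^ (D - d t)), ?_, ?_, ?_⟩
    · intro x hx
      rcases mem_insert.mp hx with rfl | hx
      · rw [Function.update_self]; omega
      · rw [Function.update_of_ne (hne x hx)]; exact a1 x hx
    · intro x hx h1 h2
      rcases mem_insert.mp hx with rfl | hx
      · have h3 : up x ∈ Z := (mem_insert.mp h2).resolve_left h1
        obtain ⟨h4, h5⟩ := b3 h1 h3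
        rw [Function.update_self, Function.update_of_ne h1, ← h4, ← h5]
        omega
      · have h3 : up x ≠ t := by
          intro h4
          have := (hup x h1).2
          have := hkey x hx
          rw [h4] at *
          omega
        rw [Function.update_of_ne (hne x hx), Function.update_of_ne h3]
        exact a2 x hx h1 ((mem_insert.mp h2).resolve_left h3)
    · intro x hx0 r hr h2
      rcases mem_insert.mp hx0 with rfl | hx
      · rw [Function.update_self, Function.update_of_ne (hR x r hr).1]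
        exact hgood r hr
      · clear hx0
        rw [Function.update_of_ne (hne x hx)]
        have h6 := hkey x hx
        rcases mem_insert.mp h2 with rfl | h2
        · rw [Function.update_self]
          obtain ⟨_, h4, h5⟩ := hR x r hr
          have h7 := hgood x (h5 (by omega))
          have h8 : (N+3) ^ (D - d x) ≤ (N+3) ^ (D - d r) :=
            Nat.pow_le_pow_right (by omega) (by omega)
          omega
        · rw [Function.update_of_ne (hne r h2)]
          exact a3 x hx r hr h2

/-- Two bounded potentials: parents are smaller in both, targets are smaller in one. -/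
theorem orders [Fintype V] (N D : ℕ) (up : V → V) (d lev : V → ℕ) (R : V → Finset V)
    (hd : ∀ t, d t ≤ D) (hup : ∀ t, up t ≠ t → d (up t) < d t ∧ lev t < lev (up t))
    (hN : ∀ t, (R t).card ≤ N)
    (hR : ∀ t, ∀ r ∈ R t, r ≠ t ∧ lev t ≤ lev r ∧ (lev r = lev t → t ∈ R r)) :
    ∃ a : Bool → V → ℕ, (∀ c t, a c t ≤ (N+3) ^ (D+1)) ∧
      (∀ c t, up t ≠ t → a c (up t) < a c t) ∧ (∀ t, ∀ r ∈ R t, ∃ c, a c r < a c t) := by
  obtain ⟨a, a1, a2, a3⟩ := orders_aux N D up d lev R hd hup hN hR univ
  refine ⟨fun c t => if c then a t else (N+3) ^ (D+1) - (a t + (N+3) ^ (D - d t)), ?_, ?_, ?_⟩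
  · intro c t
    have := a1 t (mem_univ _)
    cases c <;> simp <;> omega
  · intro c t h
    have := a1 t (mem_univ _)
    have := a1 (up t) (mem_univ _)
    have := a2 t (mem_univ _) h (mem_univ _)
    cases c <;> simp <;> omega
  · intro t r hr
    have := a1 t (mem_univ _)
    have := a1 r (mem_univ _)
    rcases a3 t (mem_univ _) r hr (mem_univ _) with h | h
    · exact ⟨true, by simpa using h⟩
    · exact ⟨false, by simp; omega⟩

/-- Proper colouring of a symmetric relation of bounded degree. -/
theorem classes [Fintype V] (N : ℕ) (R : V → Finset V) (hN : ∀ t, (R t).card ≤ N)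
    (hR : ∀ t, ∀ r ∈ R t, r ≠ t ∧ t ∈ R r) :
    ∃ a : V → ℕ, (∀ t, a t ≤ N + 3) ∧ ∀ t, ∀ r ∈ R t, a r ≠ a t := by
  obtain ⟨a, a1, _, a3⟩ := orders_aux N 0 id (fun _ => 0) (fun _ => 0) R (by simp) (by simp) hN
    (fun t r hr => ⟨(hR t r hr).1, le_rfl, fun _ => (hR t r hr).2⟩) univ
  refine ⟨a, fun t => ?_, fun t r hr => ?_⟩
  · have := a1 t (mem_univ _)
    simp at this
    omega
  · have := a3 t (mem_univ _) r hr (mem_univ _)
    simp at this
    omega

end Pool.Agent.MP_d3e607_co
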