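import Mathlib
import Pool.Agent.MP_d3e607_co.H94Cover
import Pool.Agent.MP_d3e607_co.H94Orders
import Pool.Agent.MP_d3e607_co.H94Frac

set_option autoImplicit false

namespace Pool.Agent.MP_d3e607_co

open Finset Module

variable {V : Type} [Fintype V] [DecidableEq V]

omit [Fintype V] [DecidableEq V] in
lemma mkpar {ι : Type} (I : Finset ι) (tail hd : ι → V)
    (hinj : ∀ e ∈ I, ∀ e' ∈ I, tail e = tail e' → e = e') :
    ∃ par : V → V, (∀ e ∈ I, par (tail e) = hd e) ∧
      ∀ u, par u ≠ u → ∃ e ∈ I, tail e = u ∧ hd e = par u := by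
  classical
  refine ⟨fun u => if h : ∃ e ∈ I, tail e = u then hd h.choose else u, fun e he => ?_,
    fun u hu => ?_⟩
  · have h : ∃ e' ∈ I, tail e' = tail e := ⟨e, he, rfl⟩
    simp only [dif_pos h]
    rw [hinj _ h.choose_spec.1 e he h.choose_spec.2]
  · by_cases h : ∃ e ∈ I, tail e = u
    · exact ⟨h.choose, h.choose_spec.1, h.choose_spec.2, by simp only [dif_pos h]⟩
    · simp [dif_neg h] at hu

/-- Bounded degree inside the levels. -/
def Deg (E : Finset (V × V)) (lev : V → ℕ) (Δ : ℕ) : Prop :=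
  ∀ v, ∀ T : Finset V, (∀ w ∈ T, Ad E v w ∧ lev w = lev v) → T.card ≤ Δ

omit [Fintype V] [DecidableEq V] in
lemma Ad.symm {E : Finset (V × V)} {u v : V} (h : Ad E u v) : Ad E v u := Or.symm h

lemma cluster_card {E : Finset (V × V)} {lev : V → ℕ} {Δ : ℕ} (hdeg : Deg E lev Δ) (π : V → V)
    (hπ : ∀ u, π u ≠ u → Ad E u (π u) ∧ lev (π u) = lev u) (D : ℕ) (t : V) :
    (univ.filter (fun u => π^[D] u = t)).card ≤ (Δ + 1) ^ D := by
  refine iter_card π (Δ + 1) (fun t => ?_) D t
  have h1 := hdeg t ((univ.filter (fun u => π u = t)).erase t) (by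
    intro w hw
    obtain ⟨h1, h2⟩ := mem_erase.mp hw
    have h3 := (mem_filter.mp h2).2
    have h4 := hπ w (by rw [h3]; exact h1.symm)
    rw [h3] at h4
    exact ⟨h4.1.symm, h4.2.symm⟩)
  have h2 := pred_card_le_card_erase (s := univ.filter (fun u => π u = t)) (a := t)
  omega

open Classical in
/-- Clusters that a cluster has to be compared with. -/
noncomputable def Rel (E : Finset (V × V)) (lev : V → ℕ) (top P : V → V) (t : V) : Finset V :=
  univ.filter (fun r => r ≠ t ∧ ∃ u w, top u = t ∧ top w = r ∧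
    ((Ad E u w ∧ lev w = lev u) ∨ w = P u))

lemma mem_Rel {E : Finset (V × V)} {lev : V → ℕ} {top P : V → V} {t r : V} :
    r ∈ Rel E lev top P t ↔ r ≠ t ∧ ∃ u w, top u = t ∧ top w = r ∧
      ((Ad E u w ∧ lev w = lev u) ∨ w = P u) := by
  simp [Rel]

lemma card_Rel {E : Finset (V × V)} {lev : V → ℕ} {Δ : ℕ} (hdeg : Deg E lev Δ) (top P : V → V)
    (s : ℕ) (hs : ∀ t, (univ.filter (fun u => top u = t)).card ≤ s) (t : V) :
    (Rel E lev top P t).card ≤ s * (Δ + 1) := by
  classical
  have h1 : Rel E lev top P t ⊆ (univ.filter (fun u => top u = t)).biUnion (fun u =>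
      (insert (P u) (univ.filter (fun w => Ad E u w ∧ lev w = lev u))).image top) := by
    intro r hr
    obtain ⟨_, u, w, h1, h2, h3⟩ := mem_Rel.mp hr
    refine mem_biUnion.mpr ⟨u, by simpa using h1, mem_image.mpr ⟨w, ?_, h2⟩⟩
    rcases h3 with h3 | h3
    · exact mem_insert_of_mem (by simpa using h3)
    · rw [h3]; exact mem_insert_self _ _
  refine (card_le_card h1).trans ((card_biUnion_le_card_mul _ _ (Δ + 1) (fun u _ => ?_)).trans
    (Nat.mul_le_mul_right _ (hs t)))
  refine card_image_le.trans ((card_insert_le _ _).trans (Nat.succ_le_succ ?_))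
  exact hdeg u _ (fun w hw => (mem_filter.mp hw).2)

lemma pot_lt {a b h h' s : ℕ} (hab : a < b) (hh : h ≤ s) : a * (s + 1) + h < b * (s + 1) + h' := by
  have : (a + 1) * (s + 1) ≤ b * (s + 1) := Nat.mul_le_mul_right _ hab
  rw [add_mul] at this
  omega

/-- A parent map without cycles inside the levels. -/
def FA (E : Finset (V × V)) (lev : V → ℕ) (par : V → V) : Prop :=
  ∃ φ : V → ℕ, ∀ u, par u ≠ u →
    Ad E u (par u) ∧ lev u ≤ lev (par u) ∧ (lev (par u) = lev u → φ (par u) < φ u)

/-- A parent map of bounded depth. -/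
def Bd (E : Finset (V × V)) (lev : V → ℕ) (D : ℕ) (par : V → V) : Prop :=
  ∃ φ : V → ℕ, (∀ v, φ v ≤ D) ∧
    ∀ u, par u ≠ u → Ad E u (par u) ∧ lev u ≤ lev (par u) ∧ φ (par u) < φ u

omit [Fintype V] [DecidableEq V] in
lemma Bd.mono {E : Finset (V × V)} {lev : V → ℕ} {D D' : ℕ} {par : V → V} (h : Bd E lev D par)
    (hD : D ≤ D') : Bd E lev D' par := by
  obtain ⟨φ, h1, h2⟩ := h
  exact ⟨φ, fun v => (h1 v).trans hD, h2⟩

/-- The depth bound after one merging step. -/
def nextD (Δ D : ℕ) : ℕ :=
  ((Δ + 1) ^ D * (Δ + 1) + 3) ^ (D + 1) * ((Δ + 1) ^ D + 1) + (Δ + 1) ^ D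

theorem pair (t0 : V) {E : Finset (V × V)} {lev : V → ℕ} {Δ D : ℕ} (hdeg : Deg E lev Δ)
    {P B : V → V} (hP : FA E lev P) (hB : Bd E lev D B) :
    ∃ A : Bool → V → V, (∀ c, Bd E lev (nextD Δ D) (A c)) ∧
      ∀ u v, u ≠ v → (P u = v ∨ B u = v) → ∃ c, A c u = v ∨ A c v = u := by
  classical
  obtain ⟨φP, hP⟩ := hP
  obtain ⟨φ, hφ, hB⟩ := hB
  let π : V → V := fun u => if lev (B u) = lev u then B u else u
  have hπ : ∀ u, π u ≠ u → π u = B u ∧ lev (B u) = lev u ∧ B u ≠ u := by
    intro u hu
    by_cases h : lev (B u) = lev u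
    · have : π u = B u := if_pos h
      exact ⟨this, h, this ▸ hu⟩
    · exact absurd (if_neg h) hu
  have hπφ : ∀ u, π u ≠ u → φ (π u) < φ u := fun u hu => by
    rw [(hπ u hu).1]; exact (hB u (hπ u hu).2.2).2.2
  have hπl : ∀ u, lev (π u) = lev u := fun u => by
    by_cases hu : π u = u
    · rw [hu]
    · rw [(hπ u hu).1]; exact (hπ u hu).2.1
  let top : V → V := π^[D]
  have htl : ∀ u, lev (top u) = lev u := iter_inv π lev hπl D
  have hs : ∀ t, (univ.filter (fun u => top u = t)).card ≤ (Δ + 1) ^ D :=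
    cluster_card hdeg π (fun u hu => ⟨by rw [(hπ u hu).1]; exact (hB u (hπ u hu).2.2).1, hπl u⟩) D
  let up : V → V := fun t => if lev (B t) = lev t then t else top (B t)
  obtain ⟨a, a1, a2, a3⟩ := orders ((Δ + 1) ^ D * (Δ + 1)) D up φ lev (Rel E lev top P) hφ
    (by
      intro t ht
      by_cases h : lev (B t) = lev t
      · exact absurd (if_pos h) ht
      · have h1 : up t = top (B t) := if_neg h
        have h2 := hB t (fun h3 => h (by rw [h3]))
        rw [h1, htl]
        exact ⟨lt_of_le_of_lt (iter_le π φ hπφ D _) h2.2.2, by omega⟩)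
    (card_Rel hdeg top P _ hs)
    (by
      intro t r hr
      obtain ⟨h0, u, w, h1, h2, h3⟩ := mem_Rel.mp hr
      have h4 : (Ad E u w ∧ lev u ≤ lev w) := by
        rcases h3 with h3 | h3
        · exact ⟨h3.1, h3.2.ge⟩
        · have := hP u (fun h => h0 (by rw [← h1, ← h2, h3, h]))
          rw [h3]; exact ⟨this.1, this.2.1⟩
      refine ⟨h0, by rw [← h1, ← h2, htl, htl]; exact h4.2, fun h => ?_⟩
      rw [← h1, ← h2, htl, htl] at h
      exact mem_Rel.mpr ⟨h0.symm, w, u, h2, h1, Or.inl ⟨h4.1.symm, h.symm⟩⟩)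
  let p : V × Bool → V := fun z => z.1
  let q : V × Bool → V := fun z => if z.2 then B z.1 else P z.1
  let I : Finset (V × Bool) := univ.filter (fun z => q z ≠ p z)
  let al : Bool → V × Bool → Option V → Prop := fun c z m =>
    match m with
    | none => top (p z) = top (q z)
    | some u => u = p z ∧ a c (top (q z)) < a c (top (p z))
  have hAd : ∀ z ∈ I, Ad E (p z) (q z) ∧ lev (p z) ≤ lev (q z) := by
    rintro ⟨u, b⟩ hz
    have h1 := (mem_filter.mp hz).2
    cases b
    · exact ⟨(hP u h1).1, (hP u h1).2.1⟩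
    · exact ⟨(hB u h1).1, (hB u h1).2.1⟩
  have hint : ∀ z, top (p z) = top (q z) → lev (p z) = lev (q z) := fun z h => by
    rw [← htl, h, htl]
  obtain ⟨col, tail, h, c1, c2, c3⟩ := cover t0 I p q al
    (fun z => if top (p z) = top (q z) then {p z, q z} else {p z}) (fun _ => top)
    (fun c z _ hz => by simp [show top (p z) = top (q z) from hz])
    (fun c z _ u hz => by rw [hz.1]; split <;> simp)
    (fun c z _ hz => hz)
    (by
      intro X hX hne hc
      set S := X.biUnion (fun z => if top (p z) = top (q z) then {p z, q z} else {p z}) with hS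
      have hp : ∀ z ∈ X, p z ∈ S := fun z hz => mem_biUnion.mpr ⟨z, hz, by split <;> simp⟩
      have hq : ∀ z ∈ X, top (p z) = top (q z) → q z ∈ S := fun z hz h =>
        mem_biUnion.mpr ⟨z, hz, by simp [h]⟩
      have hSne : S.Nonempty := by
        obtain ⟨z, hz⟩ := hne
        exact ⟨_, hp z hz⟩
      have hpairs : ∀ c, ∀ x ∈ S, ∀ y ∈ S, dl x + dl y ∈ spn p q (al c) X := by
        intro c
        refine conn_pairs _ X hc _ (fun z hz x hx y hy => ?_)
        by_cases h : top (p z) = top (q z)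
        · simp only [h, if_true, mem_insert, mem_singleton] at hx hy
          have h1 : dl (p z) + dl (q z) ∈ spn p q (al c) X := mem_spn_int hz h
          rcases hx with rfl | rfl <;> rcases hy with rfl | rfl
          · rw [add_self2]; exact zero_mem _
          · exact h1
          · rw [add_comm]; exact h1
          · rw [add_self2]; exact zero_mem _
        · simp only [h, if_false, mem_singleton] at hx hy
          rw [hx, hy, add_self2]; exact zero_mem _
      have hinj : ∀ b, ∀ z ∈ X.filter (fun z => z.2 = b), ∀ z' ∈ X.filter (fun z => z.2 = b),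
          p z = p z' → z = z' := fun b z hz z' hz' h =>
        Prod.ext h ((mem_filter.mp hz).2.trans (mem_filter.mp hz').2.symm)
      have hle : ∀ b, (X.filter (fun z => z.2 = b)).card ≤ S.card := fun b =>
        card_le_card_of_injOn p (fun z hz => hp z (mem_filter.mp hz).1) (hinj b)
      have hsplit : X.card = (X.filter (fun z => z.2 = true)).card +
          (X.filter (fun z => z.2 = false)).card := by
        rw [← card_filter_add_card_filter_not (s := X) (fun z => z.2 = true)]
        simp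
      have r1 := fun c => lb_pairs _ S (hpairs c)
      have r2 := fun c => lb_pairs_anch _ S (hpairs c)
      rw [Fintype.sum_bool, hsplit]
      by_cases hb : ∃ z ∈ X, z.2 = true ∧ top (p z) ≠ top (q z)
      · obtain ⟨⟨u, b⟩, hz, rfl, h1⟩ := hb
        have h2 : lev (B u) ≠ lev u := by
          intro h2
          apply h1
          have : π u = B u := if_pos h2
          show top u = top (B u)
          rw [← this]
          exact (iter_step π φ hπφ D u (hφ u)).symm
        have h3 : top u = u := Function.iterate_fixed (show π u = u from if_neg h2) D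
        have h4 : up u = top (B u) := if_neg h2
        have h5 : ∀ c, al c (u, true) (some u) := by
          intro c
          refine ⟨rfl, ?_⟩
          show a c (top (B u)) < a c (top u)
          rw [h3, ← h4]
          refine a2 c u (fun h6 => h1 ?_)
          show top u = top (B u)
          rw [h3, ← h4, h6]
        have := r2 true u (mem_spn_anch hz (h5 true))
        have := r2 false u (mem_spn_anch hz (h5 false))
        have := hle true
        have := hle false
        omega
      push Not at hb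
      have k1 := count_acyclic (X.filter (fun z => z.2 = true)) p q φ S hSne (hinj true)
        (fun z hz => hp z (mem_filter.mp hz).1)
        (fun z hz => hq z (mem_filter.mp hz).1 (hb z (mem_filter.mp hz).1 (mem_filter.mp hz).2))
        (by
          rintro ⟨u, b⟩ hz
          obtain ⟨h1, rfl⟩ := mem_filter.mp hz
          exact (hB u (mem_filter.mp (hX h1)).2).2.2)
      by_cases hb' : ∃ z ∈ X, z.2 = false ∧ top (p z) ≠ top (q z)
      · obtain ⟨⟨u, b⟩, hz, rfl, h1⟩ := hb'
        obtain ⟨c, hc⟩ := a3 (top u) (top (P u))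
          (mem_Rel.mpr ⟨h1.symm, u, P u, rfl, rfl, Or.inr rfl⟩)
        have h5 : al c (u, false) (some u) := ⟨rfl, hc⟩
        have h6 := r2 c u (mem_spn_anch hz h5)
        have := r1 true
        have := r1 false
        have := hle false
        cases c <;> omega
      push Not at hb'
      have k2 := count_acyclic (X.filter (fun z => z.2 = false)) p q φP S hSne (hinj false)
        (fun z hz => hp z (mem_filter.mp hz).1)
        (fun z hz => hq z (mem_filter.mp hz).1 (hb' z (mem_filter.mp hz).1 (mem_filter.mp hz).2))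
        (by
          rintro ⟨u, b⟩ hz
          obtain ⟨h1, rfl⟩ := mem_filter.mp hz
          exact (hP u (mem_filter.mp (hX h1)).2).2.2 (hint _ (hb' _ h1 rfl)).symm)
      have := r1 true
      have := r1 false
      omega)
  have hpar := fun c => mkpar (I.filter (fun z => col z = c)) tail
    (fun z => if tail z = p z then q z else p z) (fun z hz z' hz' h => c1 z (mem_filter.mp hz).1 z'
      (mem_filter.mp hz').1 ((mem_filter.mp hz).2.trans (mem_filter.mp hz').2.symm) h)
  choose A A1 A2 using hpar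
  have hh : ∀ c v, h c v ≤ (Δ + 1) ^ D := fun c v => (c3 c v).trans (hs _)
  refine ⟨A, fun c => ⟨fun v => a c (top v) * ((Δ + 1) ^ D + 1) + h c v, fun v => ?_,
    fun u hu => ?_⟩, fun u v huv hor => ?_⟩
  · exact add_le_add (Nat.mul_le_mul_right _ (a1 c _)) (hh c v)
  · obtain ⟨z, hz, h1, h2⟩ := A2 c u hu
    obtain ⟨hz, hc⟩ := mem_filter.mp hz
    have h3 := hAd z hz
    have h4 : q z ≠ p z := (mem_filter.mp hz).2
    have h5 := c2 z hz
    rw [hc] at h5
    rw [← h2, ← h1]
    rcases h5 with ⟨h5, ⟨h6, h7⟩ | ⟨h6, h7⟩⟩ | h5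
    · have h8 : top (p z) = top (q z) := h5
      rw [if_pos h6, h6]
      exact ⟨h3.1, h3.2, by simp only [h8]; omega⟩
    · have h8 : top (p z) = top (q z) := h5
      rw [h6, if_neg h4]
      exact ⟨h3.1.symm, (hint z h8).ge, by simp only [h8]; omega⟩
    · rw [if_pos h5.1, h5.1]
      exact ⟨h3.1, h3.2, pot_lt h5.2 (hh c _)⟩
  · obtain ⟨z, hz, h1, h2⟩ : ∃ z ∈ I, p z = u ∧ q z = v := by
      rcases hor with h | h
      · exact ⟨(u, false), mem_filter.mpr ⟨mem_univ _, by show P u ≠ u; rw [h]; exact huv.symm⟩,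
          rfl, h⟩
      · exact ⟨(u, true), mem_filter.mpr ⟨mem_univ _, by show B u ≠ u; rw [h]; exact huv.symm⟩,
          rfl, h⟩
    refine ⟨col z, ?_⟩
    have h3 := A1 (col z) z (mem_filter.mpr ⟨hz, rfl⟩)
    have h4 : tail z = p z ∨ tail z = q z := by
      rcases c2 z hz with ⟨_, h | h⟩ | h
      · exact Or.inl h.1
      · exact Or.inr h.1
      · exact Or.inl h.1
    rw [h1, h2] at h3 h4
    rcases h4 with h4 | h4
    · left; rw [if_pos h4, h4] at h3; exact h3
    · right; rw [h4, if_neg huv.symm] at h3; exact h3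

theorem iter_pair (Δ : ℕ) : ∀ (n D : ℕ), ∃ L : ℕ, ∀ (V : Type) [Fintype V] [DecidableEq V] (_ : V)
    (E : Finset (V × V)) (lev : V → ℕ), Deg E lev Δ → ∀ (P : Fin n → V → V) (B : V → V),
    (∀ i, FA E lev (P i)) → Bd E lev D B →
    ∃ A : Fin (n + 1) → V → V, (∀ c, Bd E lev L (A c)) ∧
      ∀ u v, u ≠ v → ((∃ i, P i u = v) ∨ B u = v) → ∃ c, A c u = v ∨ A c v = u := by
  intro n
  induction n with
  | zero =>
    intro D
    refine ⟨D, fun V _ _ _ E lev _ P B _ hB => ⟨fun _ => B, fun _ => hB, fun u v _ h => ?_⟩⟩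
    rcases h with ⟨i, _⟩ | h
    · exact i.elim0
    · exact ⟨0, Or.inl h⟩
  | succ n ih =>
    intro D
    obtain ⟨L, hL⟩ := ih (nextD Δ D)
    refine ⟨max L (nextD Δ D), fun V _ _ t0 E lev hdeg P B hP hB => ?_⟩
    obtain ⟨A, A1, A2⟩ := pair t0 hdeg (hP 0) hB
    obtain ⟨A', A3, A4⟩ := hL V t0 E lev hdeg (fun i => P i.succ) (A false) (fun i => hP _)
      (A1 false)
    refine ⟨Fin.cons (A true) A', fun c => ?_, fun u v huv h => ?_⟩
    · refine Fin.cases ?_ (fun i => ?_) c
      · exact (A1 true).mono (le_max_right _ _)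
      · exact (A3 i).mono (le_max_left _ _)
    · have h0 : (P 0 u = v ∨ B u = v) → ∃ c, (Fin.cons (A true) A' : Fin (n + 2) → V → V) c u = v ∨
          (Fin.cons (A true) A' : Fin (n + 2) → V → V) c v = u := by
        intro h
        obtain ⟨c, hc⟩ := A2 u v huv h
        cases c
        · rcases hc with hc | hc
          · obtain ⟨c, hc⟩ := A4 u v huv (Or.inr hc)
            exact ⟨c.succ, hc⟩
          · obtain ⟨c, hc⟩ := A4 v u huv.symm (Or.inr hc)
            exact ⟨c.succ, hc.symm⟩
        · exact ⟨0, hc⟩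
      rcases h with ⟨i, h⟩ | h
      · revert h
        refine Fin.cases (fun h => h0 (Or.inl h)) (fun i h => ?_) i
        obtain ⟨c, hc⟩ := A4 u v huv (Or.inl ⟨i, h⟩)
        exact ⟨c.succ, hc⟩
      · exact h0 (Or.inr h)

end Pool.Agent.MP_d3e607_co
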