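import Mathlib
import Pool.Agent.MP_d3e607_co.H94Pair

set_option autoImplicit false

namespace Pool.Agent.MP_d3e607_co

open Finset Module

variable {V : Type} [Fintype V] [DecidableEq V]

/-- The invariant of the rounds that turn pseudoforests into forests. -/
def Inv (E : Finset (V × V)) (lev : V → ℕ) (κ j D : ℕ) (par : V → V) : Prop :=
  ∃ φ : V → ℕ, (∀ v, φ v ≤ D) ∧
    (∀ u, par u ≠ u → φ (par u) < φ u ∧ Ad E u (par u) ∧ lev (par u) = lev u) ∧
    ∀ X ⊆ E, (∀ e ∈ X, ¬ InF par e) → ∀ S, Sub lev X S → X.card ≤ κ * S.card ∧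
      (S.Nonempty → (∀ e ∈ X, lev e.1 = lev e.2) → X.card + j ≤ κ * S.card)

lemma sum_ind (κ j : ℕ) (h : j ≤ κ) : ∑ i : Fin κ, (if i.val < j then 1 else 0) = j := by
  rw [Fin.sum_univ_eq_sum_range (fun i => if i < j then 1 else 0), ← card_filter]
  have : (range κ).filter (fun i => i < j) = range j := by
    ext i; simp only [mem_filter, mem_range]; omega
  rw [this, card_range]

omit [Fintype V] in
lemma forest_pairs {lev : V → ℕ} {X : Finset (V × V)} (hc : Conn (sup0 lev) X)
    (al : V × V → Option V → Prop) (hal : ∀ e ∈ X, lev e.1 = lev e.2 → al e none) :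
    ∀ x ∈ X.biUnion (sup0 lev), ∀ y ∈ X.biUnion (sup0 lev),
      dl x + dl y ∈ spn Prod.fst Prod.snd al X := by
  refine conn_pairs _ X hc _ (fun z hz x hx y hy => ?_)
  by_cases h : lev z.1 = lev z.2
  · simp only [sup0, h, if_true, mem_insert, mem_singleton] at hx hy
    have h1 : dl z.1 + dl z.2 ∈ spn Prod.fst Prod.snd al X := mem_spn_int hz (hal z hz h)
    rcases hx with rfl | rfl <;> rcases hy with rfl | rfl
    · rw [add_self2]; exact zero_mem _
    · exact h1
    · rw [add_comm]; exact h1
    · rw [add_self2]; exact zero_mem _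
  · simp only [sup0, h, if_false, mem_singleton] at hx hy
    rw [hx, hy, add_self2]; exact zero_mem _

lemma lb_all (U : Submodule (ZMod 2) (V → ZMod 2)) (S : Finset V) (h : ∀ x ∈ S, dl x ∈ U) :
    S.card ≤ finrank (ZMod 2) U := by
  rcases S.eq_empty_or_nonempty with rfl | ⟨a, ha⟩
  · simp
  exact lb_pairs_anch U S (fun x hx y hy => U.add_mem (h x hx) (h y hy)) a (h a ha)

omit [Fintype V] in
lemma mem_sup0 {lev : V → ℕ} {X : Finset (V × V)} {S : Finset V} (hS : Sub lev X S) {e : V × V}
    (he : e ∈ X) {u : V} (hu : u ∈ sup0 lev e) : u ∈ S := by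
  unfold sup0 at hu
  split at hu <;> simp only [mem_insert, mem_singleton] at hu
  · rcases hu with rfl | rfl
    · exact (hS e he).1
    · exact (hS e he).2 ‹_›
  · rw [hu]; exact (hS e he).1

/-- The depth bound after one round. -/
def nextE (Δ D : ℕ) : ℕ := ((Δ + 1) ^ D * (Δ + 1) + 3) * ((Δ + 1) ^ D + 1) + (Δ + 1) ^ D

theorem round (t0 : V) {E : Finset (V × V)} {lev : V → ℕ} {Δ κ j D : ℕ} (hdeg : Deg E lev Δ)
    (hasym : ∀ e ∈ E, e.swap ∉ E)
    (H1 : ∀ X ⊆ E, ∀ S : Finset V, S.Nonempty → (∀ e ∈ X, e.1 ∈ S ∧ e.2 ∈ S) →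
      X.card + (κ + 1) ≤ (κ + 1) * S.card)
    (hj : j + 1 ≤ κ) {par : V → V} (hpar : Inv E lev κ j D par) :
    ∃ par', Inv E lev κ (j + 1) (nextE Δ D) par' := by
  classical
  obtain ⟨φ, hφ, hp, hcount⟩ := hpar
  have hne : ∀ e ∈ E, e.1 ≠ e.2 := fun e he h => hasym e he (by
    have : e.swap = e := Prod.ext h.symm h
    rwa [this])
  let top : V → V := par^[D]
  have hstep : ∀ u, top (par u) = top u := fun u =>
    iter_step par φ (fun u hu => (hp u hu).1) D u (hφ u)
  have hs : ∀ t, (univ.filter (fun u => top u = t)).card ≤ (Δ + 1) ^ D :=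
    cluster_card hdeg par (fun u hu => (hp u hu).2) D
  obtain ⟨a, a1, a2⟩ := classes ((Δ + 1) ^ D * (Δ + 1)) (Rel E lev top id)
    (card_Rel hdeg top id _ hs) (by
      intro t r hr
      obtain ⟨h0, u, w, h1, h2, h3⟩ := mem_Rel.mp hr
      rcases h3 with h3 | h3
      · exact ⟨h0, mem_Rel.mpr ⟨h0.symm, w, u, h2, h1, Or.inl ⟨h3.1.symm, h3.2.symm⟩⟩⟩
      · exact absurd (by rw [← h1, ← h2, h3]; rfl) h0)
  let al : Option (Fin κ) → V × V → Option V → Prop := fun c e m =>
    match c, m with
    | none, none => lev e.1 = lev e.2 ∧ top e.1 = top e.2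
    | none, some u => lev e.1 = lev e.2 ∧
        ((u = e.1 ∧ a (top e.2) < a (top e.1)) ∨ (u = e.2 ∧ a (top e.1) < a (top e.2)))
    | some _, none => lev e.1 = lev e.2
    | some i, some u => u ∈ sup0 lev e ∧ (i.val < j + 1 → lev e.1 ≠ lev e.2)
  obtain ⟨col, tail, h, c1, c2, c3⟩ := cover t0 E Prod.fst Prod.snd al (sup0 lev)
    (fun c => match c with | none => top | some _ => fun _ => t0)
    (by
      intro c e _ hz
      have : lev e.1 = lev e.2 := by
        cases c
        · exact hz.1
        · exact hz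
      simp [sup0, this])
    (by
      intro c e _ u hz
      cases c
      · rcases hz.2 with h | h <;> simp [sup0, hz.1, h.1]
      · exact hz.1)
    (by
      intro c e _ hz
      cases c
      · exact hz.2
      · rfl)
    (by
      intro X hX hXne hc
      set S := X.biUnion (sup0 lev) with hS
      have hsub : Sub lev X S := sub_biUnion lev X
      have hSne : S.Nonempty := by
        obtain ⟨z, hz⟩ := hXne
        exact ⟨_, (hsub z hz).1⟩
      have r1 : ∀ i : Fin κ, S.card ≤ finrank (ZMod 2) (spn Prod.fst Prod.snd (al (some i)) X) +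
          (if i.val < j + 1 then 1 else 0) := by
        intro i
        split_ifs with hi
        · exact lb_pairs _ S (forest_pairs hc _ (fun e _ h => h))
        · refine lb_all _ S (fun x hx => ?_)
          obtain ⟨e, he, hx⟩ := mem_biUnion.mp hx
          exact mem_spn_anch he (show al (some i) e (some x) from ⟨hx, fun h => absurd h hi⟩)
      have r2 := sum_le_sum (s := univ) (fun i _ => r1 i)
      rw [sum_add_distrib, sum_ind κ (j + 1) hj, sum_const, card_univ, Fintype.card_fin,
        smul_eq_mul] at r2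
      let T := univ.filter (fun u => par u ≠ u ∧ ((u, par u) ∈ X ∨ (par u, u) ∈ X))
      have t1 : (X.filter (InF par)).card ≤ T.card := by
        refine card_le_card_of_injOn (fun e => if par e.1 = e.2 then e.1 else e.2)
          (fun e he => ?_) (fun e he e' he' hh => ?_)
        · obtain ⟨h1, h2⟩ := mem_filter.mp he
          have h3 := hne e (hX h1)
          refine mem_filter.mpr ⟨mem_univ _, ?_⟩
          by_cases h4 : par e.1 = e.2
          · simp only [h4, if_true]
            exact ⟨h3.symm, Or.inl h1⟩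
          · have h5 : par e.2 = e.1 := h2.resolve_left h4
            simp only [h4, if_false, h5]
            exact ⟨h3, Or.inr h1⟩
        · obtain ⟨h1, h2⟩ := mem_filter.mp he
          obtain ⟨h1', h2'⟩ := mem_filter.mp he'
          by_cases h4 : par e.1 = e.2 <;> by_cases h4' : par e'.1 = e'.2 <;>
            simp only [h4, h4', if_true, if_false] at hh
          · exact Prod.ext hh (by rw [← h4, ← h4', hh])
          · have h5 : par e'.2 = e'.1 := h2'.resolve_left h4'
            exact absurd (show e.swap ∈ E by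
              rw [show e.swap = e' from Prod.ext (by rw [← h5, ← hh, h4]; rfl) hh]
              exact hX h1') (hasym e (hX h1))
          · have h5 : par e.2 = e.1 := h2.resolve_left h4
            exact absurd (show e.swap ∈ E by
              rw [show e.swap = e' from Prod.ext hh (by rw [← h4', ← hh, h5]; rfl)]
              exact hX h1') (hasym e (hX h1))
          · have h5 : par e.2 = e.1 := h2.resolve_left h4
            have h5' : par e'.2 = e'.1 := h2'.resolve_left h4'
            exact Prod.ext (by rw [← h5, ← h5', hh]) hh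
      have t2 : ∀ u ∈ T, φ (par u) < φ u := fun u hu => (hp u (mem_filter.mp hu).2.1).1
      have t3 : ∀ u ∈ T, dl u + dl (par u) ∈ spn Prod.fst Prod.snd (al none) X := by
        intro u hu
        obtain ⟨h1, h2⟩ := (mem_filter.mp hu).2
        rcases h2 with h2 | h2
        · exact mem_spn_int h2 (show al none (u, par u) none from
            ⟨(hp u h1).2.2.symm, (hstep u).symm⟩)
        · rw [add_comm]
          exact mem_spn_int h2 (show al none (par u, u) none from ⟨(hp u h1).2.2, hstep u⟩)
      have t4 := hcount (X.filter (fun e => ¬ InF par e)) ((filter_subset _ _).trans hX)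
        (fun e he => (mem_filter.mp he).2) S (fun e he => hsub e (mem_filter.mp he).1)
      have t5 := card_filter_add_card_filter_not (s := X) (InF par)
      rw [Fintype.sum_option]
      by_cases hup : ∃ e ∈ X, lev e.1 ≠ lev e.2
      · obtain ⟨e, he, hup⟩ := hup
        have r3 : ∀ i : Fin κ,
            S.card ≤ finrank (ZMod 2) (spn Prod.fst Prod.snd (al (some i)) X) := fun i =>
          lb_pairs_anch _ S (forest_pairs hc _ (fun e _ h => h)) e.1
            (mem_spn_anch he (show al (some i) e (some e.1) from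
              ⟨by simp [sup0, hup], fun _ => hup⟩))
        have r4 := sum_le_sum (s := univ) (fun i _ => r3 i)
        rw [sum_const, card_univ, Fintype.card_fin, smul_eq_mul] at r4
        have := lb_arcs _ par φ T t2 t3
        omega
      push Not at hup
      by_cases hx : ∃ e ∈ X, top e.1 ≠ top e.2
      · obtain ⟨e, he, hx⟩ := hx
        have h1 := a2 (top e.1) (top e.2)
          (mem_Rel.mpr ⟨hx.symm, e.1, e.2, rfl, rfl, Or.inl ⟨Or.inl (hX he), (hup e he).symm⟩⟩)
        obtain ⟨u, hu⟩ : ∃ u, al none e (some u) := by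
          rcases lt_or_gt_of_ne h1 with h2 | h2
          · exact ⟨e.1, hup e he, Or.inl ⟨rfl, h2⟩⟩
          · exact ⟨e.2, hup e he, Or.inr ⟨rfl, h2⟩⟩
        have := lb_arcs_anch _ par φ T t2 t3 u (mem_spn_anch he hu)
        have := t4.2 hSne (fun e he => hup e (mem_filter.mp he).1)
        omega
      push Not at hx
      have r5 := lb_pairs _ S (forest_pairs hc (al none) (fun e he h => ⟨h, hx e he⟩))
      have r6 := H1 X hX S hSne (fun e he => ⟨(hsub e he).1, (hsub e he).2 (hup e he)⟩)
      rw [add_mul, one_mul] at r6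
      omega)
  obtain ⟨A, A1, A2⟩ := mkpar (E.filter (fun z => col z = none)) tail
    (fun z => if tail z = z.1 then z.2 else z.1) (fun z hz z' hz' h => c1 z (mem_filter.mp hz).1 z'
      (mem_filter.mp hz').1 ((mem_filter.mp hz).2.trans (mem_filter.mp hz').2.symm) h)
  have hh : ∀ v, h none v ≤ (Δ + 1) ^ D := fun v => (c3 none v).trans (hs _)
  refine ⟨A, fun v => a (top v) * ((Δ + 1) ^ D + 1) + h none v, fun v => ?_, fun u hu => ?_,
    fun X hX hF S hS => ?_⟩
  · exact add_le_add (Nat.mul_le_mul_right _ (a1 _)) (hh v)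
  · obtain ⟨z, hz, h1, h2⟩ := A2 u hu
    obtain ⟨hz, hc⟩ := mem_filter.mp hz
    have h4 := hne z hz
    have h5 := c2 z hz
    rw [hc] at h5
    rw [← h2, ← h1]
    rcases h5 with ⟨h5, ⟨h6, h7⟩ | ⟨h6, h7⟩⟩ | ⟨h5, ⟨h6, h7⟩ | ⟨h6, h7⟩⟩
    · rw [if_pos h6, h6]
      exact ⟨by simp only [h5.2]; omega, Or.inl hz, h5.1.symm⟩
    · rw [h6, if_neg h4.symm]
      exact ⟨by simp only [h5.2]; omega, Or.inr hz, h5.1⟩
    · rw [if_pos h6, h6]
      exact ⟨pot_lt h7 (hh _), Or.inl hz, h5.symm⟩
    · rw [h6, if_neg h4.symm]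
      exact ⟨pot_lt h7 (hh _), Or.inr hz, h5⟩
  · have hcol : ∀ e ∈ X, col e ≠ none := by
      intro e he hc
      have h3 := A1 e (mem_filter.mpr ⟨hX he, hc⟩)
      have h5 := c2 e (hX he)
      rw [hc] at h5
      have h4 : tail e = e.1 ∨ tail e = e.2 := by
        rcases h5 with ⟨_, h | h⟩ | ⟨_, h | h⟩
        · exact Or.inl h.1
        · exact Or.inr h.1
        · exact Or.inl h.1
        · exact Or.inr h.1
      apply hF e he
      rcases h4 with h4 | h4
      · left; rw [if_pos h4, h4] at h3; exact h3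
      · right; rw [h4, if_neg (hne e (hX he)).symm] at h3; exact h3
    have hsplit : X.card = ∑ i : Fin κ, (X.filter (fun e => col e = some i)).card := by
      rw [card_eq_sum_card_fiberwise (f := col) (t := univ) (fun _ _ => mem_univ _),
        Fintype.sum_option, filter_false_of_mem hcol]
      simp
    have hinj : ∀ i : Fin κ, ∀ z ∈ X.filter (fun e => col e = some i),
        ∀ z' ∈ X.filter (fun e => col e = some i), tail z = tail z' → z = z' :=
      fun i z hz z' hz' h => c1 z (hX (mem_filter.mp hz).1) z' (hX (mem_filter.mp hz').1)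
        ((mem_filter.mp hz).2.trans (mem_filter.mp hz').2.symm) h
    have htail : ∀ i : Fin κ, ∀ z ∈ X.filter (fun e => col e = some i), tail z ∈ S := by
      intro i z hz
      obtain ⟨h1, h2⟩ := mem_filter.mp hz
      have h5 := c2 z (hX h1)
      rw [h2] at h5
      rcases h5 with ⟨h5, h | h⟩ | h
      · rw [h.1]; exact (hS z h1).1
      · rw [h.1]; exact (hS z h1).2 h5
      · exact mem_sup0 hS h1 h.1
    have hle : ∀ i : Fin κ, (X.filter (fun e => col e = some i)).card ≤ S.card := fun i =>
      card_le_card_of_injOn tail (htail i) (hinj i)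
    constructor
    · have := sum_le_sum (s := univ) (fun i _ => hle i)
      rwa [sum_const, card_univ, Fintype.card_fin, smul_eq_mul, ← hsplit] at this
    · intro hSne hflat
      have h1 : ∀ i : Fin κ, (X.filter (fun e => col e = some i)).card +
          (if i.val < j + 1 then 1 else 0) ≤ S.card := by
        intro i
        split_ifs with hi
        · refine count_acyclic _ tail (fun z => if tail z = z.1 then z.2 else z.1) (h (some i)) S
            hSne (hinj i) (htail i) (fun z hz => ?_) (fun z hz => ?_)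
          · have := hS z (mem_filter.mp hz).1
            split
            · exact this.2 (hflat z (mem_filter.mp hz).1)
            · exact this.1
          · obtain ⟨h1, h2⟩ := mem_filter.mp hz
            have h5 := c2 z (hX h1)
            rw [h2] at h5
            rcases h5 with ⟨_, h | h⟩ | h
            · rw [if_pos h.1, h.1]; exact h.2
            · rw [h.1, if_neg (hne z (hX h1)).symm]; exact h.2
            · exact absurd (hflat z h1) (h.2 hi)
        · exact hle i
      have := sum_le_sum (s := univ) (fun i _ => h1 i)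
      rwa [sum_add_distrib, sum_ind κ (j + 1) hj, sum_const, card_univ, Fintype.card_fin,
        smul_eq_mul, ← hsplit] at this

theorem forests (t0 : V) {E : Finset (V × V)} {lev : V → ℕ} {κ D : ℕ}
    (hne : ∀ e ∈ E, e.1 ≠ e.2) (hlev : ∀ e ∈ E, lev e.1 ≤ lev e.2)
    {par : V → V} (hpar : Inv E lev κ κ D par) :
    ∃ P : Fin κ → V → V, (∀ i, FA E lev (P i)) ∧
      ∀ e ∈ E, InF par e ∨ ∃ i, InF (P i) e := by
  classical
  obtain ⟨φ, hφ, hp, hcount⟩ := hpar
  let al : Option (Fin κ) → V × V → Option V → Prop := fun c e m =>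
    match c, m with
    | none, _ => False
    | some _, none => lev e.1 = lev e.2
    | some _, some u => u = e.1 ∧ lev e.1 ≠ lev e.2
  obtain ⟨col, tail, h, c1, c2, -⟩ := cover t0 (E.filter (fun e => ¬ InF par e)) Prod.fst Prod.snd
    al (sup0 lev) (fun _ _ => t0)
    (by
      intro c e _ hz
      cases c
      · exact hz.elim
      · simp [sup0, show lev e.1 = lev e.2 from hz])
    (by
      intro c e _ u hz
      cases c
      · exact hz.elim
      · simp [sup0, hz.1, hz.2])
    (fun _ _ _ _ => rfl)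
    (by
      intro X hX hXne hc
      set S := X.biUnion (sup0 lev) with hS
      have hsub : Sub lev X S := sub_biUnion lev X
      have hSne : S.Nonempty := by
        obtain ⟨z, hz⟩ := hXne
        exact ⟨_, (hsub z hz).1⟩
      have t4 := hcount X (hX.trans (filter_subset _ _)) (fun e he => (mem_filter.mp (hX he)).2)
        S hsub
      rw [Fintype.sum_option]
      by_cases hup : ∃ e ∈ X, lev e.1 ≠ lev e.2
      · obtain ⟨e, he, hup⟩ := hup
        have r3 : ∀ i : Fin κ,
            S.card ≤ finrank (ZMod 2) (spn Prod.fst Prod.snd (al (some i)) X) := fun i =>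
          lb_pairs_anch _ S (forest_pairs hc _ (fun e _ h => h)) e.1
            (mem_spn_anch he (show al (some i) e (some e.1) from ⟨rfl, hup⟩))
        have r4 := sum_le_sum (s := univ) (fun i _ => r3 i)
        rw [sum_const, card_univ, Fintype.card_fin, smul_eq_mul] at r4
        omega
      push Not at hup
      have r3 : ∀ i : Fin κ,
          S.card ≤ finrank (ZMod 2) (spn Prod.fst Prod.snd (al (some i)) X) + 1 := fun i =>
        lb_pairs _ S (forest_pairs hc _ (fun e _ h => h))
      have r4 := sum_le_sum (s := univ) (fun i _ => r3 i)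
      rw [sum_add_distrib, sum_const, sum_const, card_univ, Fintype.card_fin, smul_eq_mul,
        smul_eq_mul] at r4
      have := t4.2 hSne hup
      omega)
  have hpar := fun i : Fin κ => mkpar ((E.filter (fun e => ¬ InF par e)).filter
    (fun z => col z = some i)) tail
    (fun z => if tail z = z.1 then z.2 else z.1) (fun z hz z' hz' h => c1 z (mem_filter.mp hz).1 z'
      (mem_filter.mp hz').1 ((mem_filter.mp hz).2.trans (mem_filter.mp hz').2.symm) h)
  choose A A1 A2 using hpar
  refine ⟨A, fun i => ⟨h (some i), fun u hu => ?_⟩, fun e he => ?_⟩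
  · obtain ⟨z, hz, h1, h2⟩ := A2 i u hu
    obtain ⟨hz, hc⟩ := mem_filter.mp hz
    have hzE := (mem_filter.mp hz).1
    have h4 := hne z hzE
    have h5 := c2 z hz
    rw [hc] at h5
    rw [← h2, ← h1]
    rcases h5 with ⟨h5, ⟨h6, h7⟩ | ⟨h6, h7⟩⟩ | ⟨h6, h7⟩
    · rw [if_pos h6, h6]
      exact ⟨Or.inl hzE, hlev z hzE, fun _ => h7⟩
    · rw [h6, if_neg h4.symm]
      exact ⟨Or.inr hzE, (show lev z.1 = lev z.2 from h5).ge, fun _ => h7⟩
    · rw [if_pos h6, h6]
      exact ⟨Or.inl hzE, hlev z hzE, fun h8 => absurd h8.symm h7⟩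
  · by_cases hF : InF par e
    · exact Or.inl hF
    right
    have he' : e ∈ E.filter (fun e => ¬ InF par e) := mem_filter.mpr ⟨he, hF⟩
    have h5 := c2 e he'
    cases hc : col e with
    | none =>
      rw [hc] at h5
      rcases h5 with h5 | h5
      · exact h5.1.elim
      · exact h5.elim
    | some i =>
      have h3 := A1 i e (mem_filter.mpr ⟨he', hc⟩)
      rw [hc] at h5
      have h4 : tail e = e.1 ∨ tail e = e.2 := by
        rcases h5 with ⟨_, h | h⟩ | h
        · exact Or.inl h.1
        · exact Or.inr h.1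
        · exact Or.inl h.1
      refine ⟨i, ?_⟩
      rcases h4 with h4 | h4
      · left; rw [if_pos h4, h4] at h3; exact h3
      · right; rw [h4, if_neg (hne e he).symm] at h3; exact h3

/-- The main statement for a levelled set of edges. -/
theorem levelled (Δ κ m : ℕ) (hm : 1 ≤ m) : ∃ L : ℕ, ∀ (V : Type) [Fintype V] [DecidableEq V]
    (_ : V) (E : Finset (V × V)) (lev : V → ℕ), Deg E lev Δ → (∀ e ∈ E, e.swap ∉ E) →
    (∀ e ∈ E, lev e.1 ≤ lev e.2) →
    (∀ X ⊆ E, ∀ S : Finset V, S.Nonempty → (∀ e ∈ X, e.1 ∈ S ∧ e.2 ∈ S) →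
      X.card + (κ + 1) ≤ (κ + 1) * S.card) →
    (∀ X ⊆ E, ∀ S, Sub lev X S → m * X.card + S.card ≤ m * (κ + 1) * S.card) →
    ∃ A : Fin (κ + 1) → V → V, (∀ c, Bd E lev L (A c)) ∧ ∀ e ∈ E, ∃ c, InF (A c) e := by
  obtain ⟨L, hL⟩ := iter_pair Δ κ ((nextE Δ)^[κ] m)
  refine ⟨L, fun V _ _ t0 E lev hdeg hasym hlev H1 Hb => ?_⟩
  have hne : ∀ e ∈ E, e.1 ≠ e.2 := fun e he h => hasym e he (by
    have : e.swap = e := Prod.ext h.symm h
    rwa [this])
  have hinv : ∀ j, j ≤ κ → ∃ par, Inv E lev κ j ((nextE Δ)^[j] m) par := by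
    intro j
    induction j with
    | zero =>
      intro _
      obtain ⟨par, φ, h1, h2, h3⟩ := pseudo t0 E lev m (κ + 1) hm (by omega) hne Hb
      exact ⟨par, φ, h1, h2, fun X hX hF S hS => ⟨h3 X hX hF S hS, fun _ _ => h3 X hX hF S hS⟩⟩
    | succ j ih =>
      intro hj
      obtain ⟨par, hpar⟩ := ih (by omega)
      rw [Function.iterate_succ_apply']
      exact round t0 hdeg hasym H1 hj hpar
  obtain ⟨par, hpar⟩ := hinv κ le_rfl
  obtain ⟨P, P1, P2⟩ := forests t0 hne hlev hpar
  obtain ⟨φ, h1, h2, -⟩ := hpar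
  obtain ⟨A, A1, A2⟩ := hL V t0 E lev hdeg P par P1
    ⟨φ, h1, fun u hu => ⟨(h2 u hu).2.1, (h2 u hu).2.2.ge, (h2 u hu).1⟩⟩
  refine ⟨A, A1, fun e he => ?_⟩
  rcases P2 e he with (h | h) | ⟨i, h | h⟩
  · exact A2 _ _ (hne e he) (Or.inr h)
  · obtain ⟨c, hc⟩ := A2 _ _ (hne e he).symm (Or.inr h)
    exact ⟨c, hc.symm⟩
  · exact A2 _ _ (hne e he) (Or.inl ⟨i, h⟩)
  · obtain ⟨c, hc⟩ := A2 _ _ (hne e he).symm (Or.inl ⟨i, h⟩)
    exact ⟨c, hc.symm⟩

end Pool.Agent.MP_d3e607_co
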