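import Mathlib
import Pool.Agent.MP_d3e607_co.H94Round
import Pool.Agent.MP_d3e607_co.H94Levels

set_option autoImplicit false

namespace Pool.Agent.MP_d3e607_co

open Finset

lemma graph_of_par {V : Type} (H : SimpleGraph V) (par : V → V) (φ : V → ℕ) (L : ℕ)
    (hL : ∀ v, φ v ≤ L) (hφ : ∀ u, par u ≠ u → φ (par u) < φ u)
    (hH : ∀ u v, H.Adj u v → par u = v ∨ par v = u) :
    H.IsAcyclic ∧ ∀ u v, H.Reachable u v → H.dist u v ≤ 2 * L := by
  classical
  constructor
  · intro v c hc
    obtain ⟨x, hx, hmax⟩ := exists_max_image c.support.toFinset φ ⟨v, by simp⟩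
    have hx' : x ∈ c.support := List.mem_toFinset.mp hx
    have hc' := hc.rotate hx'
    have key : ∀ y, y ∈ (c.rotate x hx').support → H.Adj x y → par x = y := by
      intro y hy hadj
      rcases hH x y hadj with h | h
      · exact h
      · have h1 := hφ y (by rw [h]; exact hadj.ne)
        have h2 := hmax y (List.mem_toFinset.mpr ((c.mem_support_rotate_iff x hx').mp hy))
        rw [h] at h1
        omega
    exact hc'.snd_ne_penultimate
      ((key _ (SimpleGraph.Walk.getVert_mem_support _ _)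
        (SimpleGraph.Walk.adj_snd hc'.not_nil)).symm.trans
      (key _ (SimpleGraph.Walk.getVert_mem_support _ _)
        (SimpleGraph.Walk.adj_penultimate hc'.not_nil).symm))
  · let π : V → V := fun u => if H.Adj u (par u) then par u else u
    have hπ : ∀ u, π u ≠ u → H.Adj u (π u) ∧ φ (π u) < φ u := by
      intro u hu
      by_cases h : H.Adj u (par u)
      · have h1 : π u = par u := if_pos h
        rw [h1]
        exact ⟨h, hφ u h.ne'⟩
      · exact absurd (if_neg h) hu
    have hstep := fun u => iter_step π φ (fun u hu => (hπ u hu).2) L u (hL u)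
    have hadj : ∀ u v, H.Adj u v → π^[L] u = π^[L] v := by
      intro u v h
      rcases hH u v h with h1 | h1
      · have : π u = v := by simp only [π, h1, h, if_true]
        rw [← this, hstep]
      · have : π v = u := by simp only [π, h1, h.symm, if_true]
        rw [← this, hstep]
    have hwalk : ∀ (n : ℕ) (u r : V), π^[n] u = r → ∃ p : H.Walk u r, p.length ≤ n := by
      intro n
      induction n with
      | zero => rintro u r rfl; exact ⟨SimpleGraph.Walk.nil, le_rfl⟩
      | succ n ih =>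
        intro u r h
        rw [Function.iterate_succ_apply] at h
        by_cases hu : π u = u
        · rw [hu] at h
          obtain ⟨p, hp⟩ := ih u r h
          exact ⟨p, by omega⟩
        · obtain ⟨p, hp⟩ := ih _ r h
          exact ⟨SimpleGraph.Walk.cons (hπ u hu).1 p, by simpa using hp⟩
    rintro u v ⟨w⟩
    have h1 : π^[L] u = π^[L] v := by
      induction w with
      | nil => rfl
      | cons h _ ih => exact (hadj _ _ h).trans ih
    obtain ⟨p, hp⟩ := hwalk L u _ h1
    obtain ⟨p', hp'⟩ := hwalk L v _ rfl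
    have := SimpleGraph.dist_le (p.append p'.reverse)
    rw [SimpleGraph.Walk.length_append, SimpleGraph.Walk.length_reverse] at this
    omega

lemma two_card {V : Type} [DecidableEq V] {X T : Finset (V × V)} (h : ∀ e ∈ X, e.swap ∉ X)
    (h1 : ∀ e ∈ X, e ∈ T ∧ e.swap ∈ T) : 2 * X.card ≤ T.card := by
  have h2 : Disjoint X (X.image Prod.swap) := by
    rw [disjoint_right]
    intro e he
    obtain ⟨e', he', rfl⟩ := mem_image.mp he
    exact h e' he'
  have h3 : X ∪ X.image Prod.swap ⊆ T := by
    intro e he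
    rcases mem_union.mp he with he | he
    · exact (h1 e he).1
    · obtain ⟨e', he', rfl⟩ := mem_image.mp he
      exact (h1 e' he').2
  have h4 := card_le_card h3
  rw [card_union_of_disjoint h2, card_image_of_injective _ Prod.swap_injective] at h4
  omega

theorem parents (κ m : ℕ) (hm : 1 ≤ m) : ∃ L : ℕ, ∀ (V : Type) [Fintype V] [DecidableEq V]
    (_ : V) (G : SimpleGraph V) [DecidableRel G.Adj],
    (∀ S : Finset V, S.Nonempty → (prs G S).card + 2 * (κ + 1) ≤ 2 * ((κ + 1) * S.card)) →
    (∀ S : Finset V, m * (prs G S).card + 4 * S.card ≤ 2 * (m * (κ + 1) * S.card)) →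
    ∃ A : Fin (κ + 1) → V → V,
      (∀ c, ∃ φ : V → ℕ, (∀ v, φ v ≤ L) ∧ ∀ u, A c u ≠ u → φ (A c u) < φ u) ∧
      ∀ u v, G.Adj u v → ∃ c, A c u = v ∨ A c v = u := by
  obtain ⟨L, hL⟩ := levelled (2 * m * (κ + 1) * (κ + 1)) κ m hm
  refine ⟨L, fun V _ _ t0 G _ H1 H2 => ?_⟩
  obtain ⟨lev, l1, l2⟩ := levels G (κ + 1) m hm H2 univ
  let ord : V → ℕ := fun v => (Fintype.equivFin V v).val
  have hord : ∀ u v, ord u = ord v → u = v := fun u v h =>
    (Fintype.equivFin V).injective (Fin.ext h)
  let E : Finset (V × V) := univ.filter (fun x => G.Adj x.1 x.2 ∧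
    (lev x.1 < lev x.2 ∨ (lev x.1 = lev x.2 ∧ ord x.1 < ord x.2)))
  have hE : ∀ x, x ∈ E ↔ G.Adj x.1 x.2 ∧
      (lev x.1 < lev x.2 ∨ (lev x.1 = lev x.2 ∧ ord x.1 < ord x.2)) := fun x => by simp [E]
  have hasym : ∀ e ∈ E, e.swap ∉ E := by
    intro e he h
    have h1 := ((hE _).mp he).2
    have h2 := ((hE _).mp h).2
    simp only [Prod.fst_swap, Prod.snd_swap] at h2
    omega
  obtain ⟨A, A1, A2⟩ := hL V t0 E lev
    (by
      intro v T hT
      refine le_trans (card_le_card (fun w hw => ?_)) (l1 v (mem_univ _))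
      refine mem_filter.mpr ⟨mem_univ _, ?_, (hT w hw).2⟩
      rcases (hT w hw).1 with h | h
      · exact ((hE _).mp h).1
      · exact ((hE _).mp h).1.symm)
    hasym
    (fun e he => by have := ((hE _).mp he).2; omega)
    (by
      intro X hX S hS h
      have h1 := two_card (T := prs G S) (fun e he h => hasym e (hX he) (hX h)) (fun e he => by
        have := ((hE _).mp (hX he)).1
        simp [prs, h e he, this, this.symm])
      have := H1 S hS
      omega)
    (by
      intro X hX S h
      have h1 := two_card (T := (prs G univ).filter (fun x =>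
          (lev x.1 ≤ lev x.2 → x.1 ∈ S) ∧ (lev x.2 ≤ lev x.1 → x.2 ∈ S)))
        (fun e he h => hasym e (hX he) (hX h)) (fun e he => by
          have h2 := (hE _).mp (hX he)
          have h3 := h e he
          have h4 : lev e.2 ≤ lev e.1 → e.2 ∈ S := fun h5 => h3.2 (by omega)
          simp only [prs, mem_filter, mem_product, mem_univ, true_and, Prod.fst_swap,
            Prod.snd_swap]
          exact ⟨⟨h2.1, fun _ => h3.1, h4⟩, h2.1.symm, h4, fun _ => h3.1⟩)
      have h2 := l2 S (subset_univ _)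
      have h3 := Nat.mul_le_mul_left m h1
      rw [← mul_assoc, mul_comm m 2, mul_assoc] at h3
      omega)
  refine ⟨A, fun c => ?_, fun u v huv => ?_⟩
  · obtain ⟨φ, h1, h2⟩ := A1 c
    exact ⟨φ, h1, fun u hu => (h2 u hu).2.2⟩
  · have h1 : ord u ≠ ord v := fun h => huv.ne (hord u v h)
    by_cases h : (u, v) ∈ E
    · exact A2 _ h
    · have h2 : (v, u) ∈ E := by
        rw [hE] at h ⊢
        simp only [huv, true_and] at h
        exact ⟨huv.symm, by simp only; omega⟩
      obtain ⟨c, hc⟩ := A2 _ h2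
      exact ⟨c, hc.symm⟩

lemma prs_small {V : Type} (G : SimpleGraph V) [DecidableRel G.Adj] (S : Finset V)
    (h : S.card ≤ 1) : (prs G S).card = 0 := by
  rw [card_eq_zero, prs, filter_eq_empty_iff]
  intro x hx hadj
  exact hadj.ne (card_le_one.mp h _ (mem_product.mp hx).1 _ (mem_product.mp hx).2)

theorem main (k : ℕ) (ε : ℝ) (hε : 0 < ε) : ∃ d : ℕ,
      ∀ (V : Type) [Fintype V] (G : SimpleGraph V) [DecidableRel G.Adj],
        (∀ S : Finset V, 2 ≤ S.card →
          (((S ×ˢ S).filter (fun p => G.Adj p.1 p.2)).card : ℝ)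
            ≤ 2 * ((k : ℝ) - ε) * ((S.card : ℝ) - 1)) →
        ∃ c : G.edgeSet → Fin k, ∀ i : Fin k,
          (SimpleGraph.fromEdgeSet {e | ∃ h : e ∈ G.edgeSet, c ⟨e, h⟩ = i}).IsAcyclic ∧
          ∀ u v : V,
            (SimpleGraph.fromEdgeSet {e | ∃ h : e ∈ G.edgeSet, c ⟨e, h⟩ = i}).Reachable u v →
            (SimpleGraph.fromEdgeSet {e | ∃ h : e ∈ G.edgeSet, c ⟨e, h⟩ = i}).dist u v ≤ d := by
  classical
  cases k with
  | zero =>
    refine ⟨0, fun V _ G _ h => ⟨fun e => False.elim ?_, fun i => i.elim0⟩⟩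
    obtain ⟨e, he⟩ := e
    induction e using Sym2.ind with
    | _ u v =>
    have hadj : G.Adj u v := he
    have h1 := h {u, v} (by rw [card_pair hadj.ne])
    rw [card_pair hadj.ne] at h1
    have h2 := Nat.cast_nonneg (α := ℝ) ((({u, v} : Finset V) ×ˢ ({u, v} : Finset V)).filter
      (fun p => G.Adj p.1 p.2)).card
    norm_num at h1
    linarith
  | succ κ =>
    obtain ⟨m, hm2, hmε⟩ : ∃ m : ℕ, 2 ≤ m ∧ 2 ≤ (m : ℝ) * ε := by
      refine ⟨⌈2 / ε⌉₊ + 2, by omega, ?_⟩
      have := Nat.le_ceil (2 / ε)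
      rw [div_le_iff₀ hε] at this
      push_cast
      nlinarith
    obtain ⟨L, hL⟩ := parents κ m (by omega)
    refine ⟨2 * L, fun V _ G _ h => ?_⟩
    rcases isEmpty_or_nonempty V with hV | ⟨⟨t0⟩⟩
    · exact ⟨fun _ => 0, fun i => ⟨fun v => isEmptyElim v, fun v => isEmptyElim v⟩⟩
    obtain ⟨A, A1, A2⟩ := hL V t0 G
      (by
        intro S hS
        by_cases h2 : 2 ≤ S.card
        · have h3 : ((prs G S).card : ℝ) ≤ _ := h S h2
          have h4 : (2 : ℝ) ≤ S.card := by exact_mod_cast h2
          have h5 : ((prs G S).card : ℝ) + 2 * (κ + 1) ≤ 2 * ((κ + 1) * S.card) := by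
            push_cast at h3
            nlinarith
          exact_mod_cast h5
        · have := card_pos.mpr hS
          rw [prs_small G S (by omega), show S.card = 1 by omega]
          omega)
      (by
        intro S
        have h0 : 2 * S.card ≤ m * (κ + 1) * S.card :=
          Nat.mul_le_mul_right _ (hm2.trans (Nat.le_mul_of_pos_right _ (by omega)))
        by_cases h2 : 2 ≤ S.card
        · have h3 : ((prs G S).card : ℝ) ≤ _ := h S h2
          have h4 : (2 : ℝ) ≤ S.card := by exact_mod_cast h2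
          have h6 : (2 : ℝ) ≤ m := by exact_mod_cast hm2
          have h7 : (0 : ℝ) ≤ κ := Nat.cast_nonneg _
          have h5 : (m : ℝ) * ((prs G S).card : ℝ) + 4 * S.card ≤ 2 * (m * (κ + 1) * S.card) := by
            push_cast at h3
            have h8 := mul_le_mul_of_nonneg_left h3 (show (0 : ℝ) ≤ m by linarith)
            have h9 := mul_le_mul_of_nonneg_right hmε (show (0 : ℝ) ≤ S.card - 1 by linarith)
            nlinarith
          exact_mod_cast h5
        · rw [prs_small G S (by omega)]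
          omega)
    have hc : ∀ e : G.edgeSet, ∃ c, ∀ u v, e.1 = s(u, v) → A c u = v ∨ A c v = u := by
      rintro ⟨e, he⟩
      induction e using Sym2.ind with
      | _ u v =>
      obtain ⟨c, hc⟩ := A2 u v he
      refine ⟨c, fun x y hxy => ?_⟩
      rcases Sym2.eq_iff.mp hxy with ⟨rfl, rfl⟩ | ⟨rfl, rfl⟩
      · exact hc
      · exact hc.symm
    choose c hc using hc
    refine ⟨c, fun i => ?_⟩
    obtain ⟨φ, h1, h2⟩ := A1 i
    refine graph_of_par _ (A i) φ L h1 h2 (fun u v huv => ?_)
    obtain ⟨⟨he, h3⟩, _⟩ := (SimpleGraph.fromEdgeSet_adj _).mp huv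
    rw [← h3]
    exact hc ⟨_, he⟩ u v rfl

end Pool.Agent.MP_d3e607_co
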